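import Pool.Agent.Malc.X.T2

/-! # Theorem X: the start of the induction, the theorem for families -/

set_option autoImplicit false

namespace Pool.Agent.Malc

universe u

namespace X

open CPA Finset

variable {F : Type u} [Field F]

theorem Wd.nonempty {L : Finset ℕ} {a : VF F} (h : Wd L a) : L.Nonempty := by
  induction h with
  | of i => exact ⟨i, Finset.mem_singleton_self i⟩
  | mul _ _ _ ih _ => exact ih.mono Finset.subset_union_left

/-- a word which is not a letter contains a product of two letters -/
theorem wd_split {L : Finset ℕ} {a : VF F} (h : Wd L a) :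
    (∃ i, L = {i} ∧ a = xx i) ∨ ∃ i ∈ L, ∃ j ∈ L, i ≠ j ∧ ∃ a', Wd (L.erase i) a' ∧
      a = sbV j (mV (xx i) (xx j)) a' := by
  induction h with
  | of i => exact Or.inl ⟨i, rfl, rfl⟩
  | @mul L M a b ha hb hd iha ihb =>
    right
    rcases iha with ⟨i, rfl, rfl⟩ | ⟨i, hi, j, hj, hij, a', ha', rfl⟩
    · rcases ihb with ⟨j, rfl, rfl⟩ | ⟨k, hk, j, hj, hkj, b', hb', rfl⟩
      · have hij : i ≠ j := Finset.disjoint_singleton.1 hd
        refine ⟨i, Finset.mem_union_left _ (Finset.mem_singleton_self i), j,
          Finset.mem_union_right _ (Finset.mem_singleton_self j), hij, xx j, ?_, ?_⟩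
        · refine (Wd.of j).cast ?_
          ext n
          simp only [Finset.mem_singleton, Finset.mem_erase, Finset.mem_union]
          constructor
          · rintro rfl
            exact ⟨hij.symm, Or.inr rfl⟩
          · rintro ⟨h1, h2 | h2⟩
            · exact absurd h2 h1
            · exact h2
        · rw [sbV_xx_self]
      · have hiM : i ∉ M := Finset.disjoint_singleton_left.1 hd
        have hik : i ≠ k := fun e => hiM (e ▸ hk)
        have hij : i ≠ j := fun e => hiM (e ▸ hj)
        refine ⟨k, Finset.mem_union_right _ hk, j, Finset.mem_union_right _ hj, hkj,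
          mV (xx i) b', ?_, ?_⟩
        · refine (Wd.mul (Wd.of i) hb' (Finset.disjoint_singleton_left.2
            (fun h => hiM (Finset.mem_of_mem_erase h)))).cast ?_
          rw [Finset.erase_union_distrib, Finset.erase_eq_of_notMem (s := {i})]
          exact fun h => hik (Finset.mem_singleton.1 h).symm
        · rw [sbV_mV, sbV_xx_ne hij]
    · have hiM : i ∉ M := Finset.disjoint_left.1 hd hi
      have hjM : j ∉ M := Finset.disjoint_left.1 hd hj
      refine ⟨i, Finset.mem_union_left _ hi, j, Finset.mem_union_left _ hj, hij,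
        mV a' b, ?_, ?_⟩
      · refine (Wd.mul ha' hb (hd.mono_left (Finset.erase_subset _ _))).cast ?_
        rw [Finset.erase_union_distrib, Finset.erase_eq_of_notMem hiM]
      · rw [sbV_mV, sbV_indep (E_of hb) hjM]

/-- a monomial in special letters is in the span of the relations -/
theorem mo_special {L : Finset ℕ} {S P Q : ℕ → ℕ → Prop} (hS : ∀ i j, S i j) (hP : ∀ i j, P i j)
    {f : SF F} (hf : Mo L f) : (L = ∅ ∧ f = 1) ∨ f ∈ KK F L S P Q := by
  cases hf with
  | one => exact Or.inl ⟨rfl, rfl⟩
  | @mul L M N a b f ha hb hf h1 h2 =>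
    right
    rcases wd_split ha with ⟨i, rfl, rfl⟩ | ⟨i, hi, j, hj, hij, a', ha', rfl⟩
    · rcases wd_split hb with ⟨j, rfl, rfl⟩ | ⟨k, hk, j, hj, hkj, b', hb', rfl⟩
      · have hij : i ≠ j := Finset.disjoint_singleton.1 h1
        rw [Finset.disjoint_union_left, Finset.disjoint_singleton_left,
          Finset.disjoint_singleton_left] at h2
        refine KS ?_ ?_ hij (hS i j) (D_cast (D_of hf) ?_)
        · exact Finset.mem_union_left _ (Finset.mem_union_left _ (Finset.mem_singleton_self i))
        · exact Finset.mem_union_left _ (Finset.mem_union_right _ (Finset.mem_singleton_self j))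
        · ext n
          simp only [Finset.mem_singleton, Finset.mem_erase, Finset.mem_union]
          constructor
          · intro hn
            exact ⟨fun e => h2.2 (e ▸ hn), fun e => h2.1 (e ▸ hn), Or.inr hn⟩
          · rintro ⟨h3, h4, (h5 | h5) | h5⟩
            · exact absurd h5 h4
            · exact absurd h5 h3
            · exact h5
      · have hiM : i ∉ M := Finset.disjoint_singleton_left.1 h1
        have hik : i ≠ k := fun e => hiM (e ▸ hk)
        have hij : i ≠ j := fun e => hiM (e ▸ hj)
        have hkN : k ∉ N := Finset.disjoint_left.1 h2 (Finset.mem_union_right _ hk)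
        have hjN : j ∉ N := Finset.disjoint_left.1 h2 (Finset.mem_union_right _ hj)
        have e : sV (xx i) (sbV j (mV (xx k) (xx j)) b') * f =
            sb j (mV (xx k) (xx j)) (sV (xx i) b' * f) := by
          rw [sb_mul, sb_sV, sbV_xx_ne hij, sb_indep (D_of hf) hjN]
        rw [e]
        refine KP ?_ ?_ hkj (hP k j) ?_
        · exact Finset.mem_union_left _ (Finset.mem_union_right _ hk)
        · exact Finset.mem_union_left _ (Finset.mem_union_right _ hj)
        · refine D_cast (D_of (Mo.mul (Wd.of i) hb' hf ?_ ?_)) ?_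
          · exact h1.mono_right (Finset.erase_subset _ _)
          · exact h2.mono_left (Finset.union_subset_union_right (Finset.erase_subset _ _))
          · rw [Finset.erase_union_distrib, Finset.erase_union_distrib,
              Finset.erase_eq_of_notMem hkN, Finset.erase_eq_of_notMem (s := {i})]
            exact fun h => hik (Finset.mem_singleton.1 h).symm
    · have hiM : i ∉ M := Finset.disjoint_left.1 h1 hi
      have hjM : j ∉ M := Finset.disjoint_left.1 h1 hj
      have hiN : i ∉ N := Finset.disjoint_left.1 h2 (Finset.mem_union_left _ hi)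
      have hjN : j ∉ N := Finset.disjoint_left.1 h2 (Finset.mem_union_left _ hj)
      have e : sV (sbV j (mV (xx i) (xx j)) a') b * f =
          sb j (mV (xx i) (xx j)) (sV a' b * f) := by
        rw [sb_mul, sb_sV, sbV_indep (E_of hb) hjM, sb_indep (D_of hf) hjN]
      rw [e]
      refine KP ?_ ?_ hij (hP i j) ?_
      · exact Finset.mem_union_left _ (Finset.mem_union_left _ hi)
      · exact Finset.mem_union_left _ (Finset.mem_union_left _ hj)
      · refine D_cast (D_of (Mo.mul ha' hb hf ?_ ?_)) ?_
        · exact h1.mono_left (Finset.erase_subset _ _)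
        · exact h2.mono_left (Finset.union_subset_union_left (Finset.erase_subset _ _))
        · rw [Finset.erase_union_distrib, Finset.erase_union_distrib,
              Finset.erase_eq_of_notMem hiN, Finset.erase_eq_of_notMem hiM]

variable (F)

/-- the start of the induction -/
theorem HH_empty : HH F ∅ := by
  intro L col f hf hv
  have hS : ∀ i j, R0 ∅ col i j := fun i j => ⟨Finset.notMem_empty _, Finset.notMem_empty _⟩
  have h1 : ∃ r : F, f - r • (1 : SF F) ∈ KK F L (R0 ∅ col) (R0 ∅ col) (Qc col) ∧ (L ≠ ∅ → r = 0) := by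
    refine D_ind (p := fun f => ∃ r : F, f - r • (1 : SF F) ∈ KK F L (R0 ∅ col) (R0 ∅ col) (Qc col) ∧
      (L ≠ ∅ → r = 0)) ?_ ?_ ?_ ?_ hf
    · rintro a b ⟨r, ha, hr⟩ ⟨s, hb, hs⟩
      refine ⟨r + s, ?_, fun h => by rw [hr h, hs h, add_zero]⟩
      rw [add_smul, add_sub_add_comm]
      exact Submodule.add_mem _ ha hb
    · rintro c a ⟨r, ha, hr⟩
      refine ⟨c * r, ?_, fun h => by rw [hr h, mul_zero]⟩
      rw [mul_smul, ← smul_sub]
      exact Submodule.smul_mem _ _ ha
    · refine ⟨0, ?_, fun _ => rfl⟩
      rw [zero_smul, sub_zero]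
      exact Submodule.zero_mem _
    · intro f hf
      rcases mo_special hS hS hf with ⟨hL, rfl⟩ | h
      · refine ⟨1, ?_, fun h => absurd hL h⟩
        rw [one_smul, sub_self]
        exact Submodule.zero_mem _
      · refine ⟨0, ?_, fun _ => rfl⟩
        rw [zero_smul, sub_zero]
        exact h
  obtain ⟨r, hr, hr0⟩ := h1
  have h2 : r = 0 := by
    by_cases hL : L = ∅
    · subst hL
      have h3 : (f - r • (1 : SF F)) (C7R F F) (fun i => pt0 F ∅ F (fun _ _ => 0) (col i)) = 0 :=
        KK_van hr _ _ (fun i hi => absurd hi (Finset.notMem_empty _))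
          (fun i hi => absurd hi (Finset.notMem_empty _)) (fun i hi => absurd hi (Finset.notMem_empty _))
      have h4 := hv F (fun _ _ => 0)
      have h5 : f (C7R F F) (fun i => pt0 F ∅ F (fun _ _ => 0) (col i)) -
        r • (1 : (C7R F F).S) = 0 := h3
      have h6 : f (C7R F F) (fun i => pt0 F ∅ F (fun _ _ => 0) (col i)) = 0 := h4
      rw [h6, zero_sub, neg_eq_zero] at h5
      have h7 : r * 1 = (0 : F) := h5
      rwa [mul_one] at h7
    · exact hr0 hL
  rw [h2, zero_smul, sub_zero] at hr
  exact hr

variable {F}

theorem HH_all (hc : (2 : F) ≠ 0) (G : Finset ℕ) : HH F G := by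
  induction G using Finset.induction_on with
  | empty => exact HH_empty F
  | @insert X G hX ih => exact HH_insert hc hX ih

/-- **Theorem X for families in arbitrary multidegree** -/
theorem thmX' (hc : (2 : F) ≠ 0) {L : Finset ℕ} {col : ℕ → ℕ} {f : SF F} (hf : f ∈ D F L)
    (hv : Van (pt0 F (L.image col)) col f) (A : CPA F) (y : ℕ → A.E) :
    f A (fun i => y (col i)) = 0 := by
  have h1 := HH_all hc (L.image col) L col f hf hv
  refine KK_van h1 A _ ?_ ?_ ?_
  · intro i hi j _ _ h
    exact absurd (Finset.mem_image_of_mem col hi) h.1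
  · intro i hi j _ _ h
    exact absurd (Finset.mem_image_of_mem col hi) h.1
  · intro i _ j _ _ h
    have h' : col i = col j := h
    rw [h']

end X

end Pool.Agent.Malc
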