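import Pool.Agent.Malc.CPA

/-! # Theorem X in every characteristic: multilinear families

`SF F` and `VF F` are the scalar and the vector valued functions on the assignments of all cross product algebras over
`F`. `D L` is the span of the products of `s(word, word')` with the letters `L`, each once. `E L` are the vector valued
ones. -/

set_option autoImplicit false

namespace Pool.Agent.Malc

universe u

namespace X

open CPA Finset

/-- scalar families -/
abbrev SF (F : Type u) [Field F] : Type (u + 1) := (A : CPA F) → (ℕ → A.E) → A.S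

/-- vector families -/
abbrev VF (F : Type u) [Field F] : Type (u + 1) := (A : CPA F) → (ℕ → A.E) → A.E

variable {F : Type u} [Field F]

/-- the letter -/
def xx (i : ℕ) : VF F := fun _ x => x i

/-- the product of vector families -/
def mV (a b : VF F) : VF F := fun A x => A.mul (a A x) (b A x)

/-- the form of vector families -/
def sV (a b : VF F) : SF F := fun A x => A.s (a A x) (b A x)

/-- the product of a scalar family and a vector family -/
def cV (f : SF F) (a : VF F) : VF F := fun A x => f A x • a A x

/-- the substitution of `W` for the letter `i` in a scalar family -/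
def sb (i : ℕ) (W : VF F) (f : SF F) : SF F := fun A x => f A (Function.update x i (W A x))

/-- the substitution of `W` for the letter `i` in a vector family -/
def sbV (i : ℕ) (W : VF F) (a : VF F) : VF F := fun A x => a A (Function.update x i (W A x))

/-- renaming the letters of a scalar family -/
def ren (σ : ℕ → ℕ) (f : SF F) : SF F := fun A x => f A (fun i => x (σ i))

/-- renaming the letters of a vector family -/
def renV (σ : ℕ → ℕ) (a : VF F) : VF F := fun A x => a A (fun i => x (σ i))

/-- words -/
inductive Wd : Finset ℕ → VF F → Prop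
  | of (i : ℕ) : Wd {i} (xx i)
  | mul {L M : Finset ℕ} {a b : VF F} : Wd L a → Wd M b → Disjoint L M → Wd (L ∪ M) (mV a b)

/-- monomials -/
inductive Mo : Finset ℕ → SF F → Prop
  | one : Mo ∅ 1
  | mul {L M N : Finset ℕ} {a b : VF F} {f : SF F} : Wd L a → Wd M b → Mo N f → Disjoint L M →
      Disjoint (L ∪ M) N → Mo (L ∪ M ∪ N) (sV a b * f)

variable (F) in
/-- the scalar families with the letters `L` -/
def D (L : Finset ℕ) : Submodule F (SF F) := Submodule.span F {f | Mo L f}

variable (F) in
/-- the vector families with the letters `L` -/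
def E (L : Finset ℕ) : AddSubgroup (VF F) :=
  AddSubgroup.closure {v | ∃ N M f a, f ∈ D F N ∧ Wd M a ∧ Disjoint N M ∧ N ∪ M = L ∧ v = cV f a}

variable (F) in
/-- the span of the relations: `S i j` means that `s(x_i, x_j) = 0`, `P i j` that `x_i x_j = 0`, `Q i j` that
`x_i = x_j` -/
def KK (L : Finset ℕ) (S P Q : ℕ → ℕ → Prop) : Submodule F (SF F) :=
  Submodule.span F {h | (∃ i ∈ L, ∃ j ∈ L, i ≠ j ∧ S i j ∧ ∃ w ∈ D F ((L.erase i).erase j),
      h = sV (xx i) (xx j) * w) ∨
    (∃ i ∈ L, ∃ j ∈ L, i ≠ j ∧ P i j ∧ ∃ w ∈ D F (L.erase i), h = sb j (mV (xx i) (xx j)) w) ∨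
    (∃ i ∈ L, ∃ j ∈ L, i ≠ j ∧ Q i j ∧ ∃ w ∈ D F L, h = w - ren (Equiv.swap i j) w)}

end X

end Pool.Agent.Malc
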