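import Pool.Agent.Malc.X.IdsA

/-! # Theorem X: the map `x_j := x_i x_j` on the relations -/

set_option autoImplicit false

namespace Pool.Agent.Malc

universe u

namespace X

open CPA Finset

variable {F : Type u} [Field F] {L : Finset ℕ} {S P Q S' P' Q' : ℕ → ℕ → Prop} {i j : ℕ}

theorem gam_comm {p q : ℕ} (hj : j ≠ p) (hi : i ≠ q) (hjq : j ≠ q) (w : SF F) :
    sb j (mV (xx i) (xx j)) (sb q (mV (xx p) (xx q)) w) =
      sb q (mV (xx p) (xx q)) (sb j (mV (xx i) (xx j)) w) :=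
  sb_sb_comm hjq (sbV_mV_xx hi hjq _) (sbV_mV_xx hj.symm hjq.symm _)

theorem gam_comp {q : ℕ} {w : SF F} (hjq : j ≠ q) (hw : w ∈ D F ((L.erase i).erase j)) :
    sb j (mV (xx i) (xx j)) (sb q (mV (xx j) (xx q)) w) =
      sb q (mV (mV (xx i) (xx j)) (xx q)) w := by
  funext A x
  have e : sbV j (mV (xx i) (xx j)) (mV (xx j) (xx q)) = (mV (mV (xx i) (xx j)) (xx q) : VF F) := by
    rw [sbV_mV, sbV_xx_self, sbV_xx_ne hjq.symm]
  show w A (Function.update (Function.update x j _) q (sbV j (mV (xx i) (xx j))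
    (mV (xx j) (xx q)) A x)) = w A (Function.update x q _)
  rw [e, Function.update_comm hjq]
  exact indep hw A _ (Finset.notMem_erase j _) _

/-- the map `x_j := x_i x_j` -/
theorem gam (hc : (2 : F) ≠ 0) (hi : i ∈ L) (hj : j ∈ L) (hij : i ≠ j)
    (hS : ∀ p ∈ L, ∀ q ∈ L, p ≠ q → p ≠ i → q ≠ i → p ≠ j → q ≠ j → S' p q → S p q)
    (hP : ∀ p ∈ L, ∀ q ∈ L, p ≠ q → p ≠ i → q ≠ i → p ≠ j → q ≠ j → P' p q → P p q)
    (hS' : ∀ q ∈ L, q ≠ i → q ≠ j → (S' j q ∨ S' q j) → P j q ∨ Q i q)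
    (hP' : ∀ q ∈ L, q ≠ i → q ≠ j → (P' j q ∨ P' q j) →
      (S i j ∧ S i q ∧ S j q ∧ P j q) ∨ (Q i q ∧ S i j ∧ S i q ∧ S j q))
    (hQ : ∀ p ∈ L.erase i, ∀ q ∈ L.erase i, p ≠ q → Q' p q → ∀ w ∈ D F (L.erase i),
      sb j (mV (xx i) (xx j)) (w - rr p q w) ∈ KK F L S P Q)
    {h : SF F} (hh : h ∈ KK F (L.erase i) S' P' Q') :
    sb j (mV (xx i) (xx j)) h ∈ KK F L S P Q := by
  have base : ∀ q ∈ L, q ≠ i → q ≠ j → (S' j q ∨ S' q j) →
      ∀ w ∈ D F (((L.erase i).erase j).erase q), sV (mV (xx i) (xx j)) (xx q) * w ∈ KK F L S P Q := by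
    intro q hq hqi hqj h w hw
    rcases hS' q hq hqi hqj h with h | h
    · exact GB hi hj hq hij hqi.symm hqj.symm hw h
    · exact GB' hc hi hj hq hij hqi.symm hqj.symm hw h
  have bas2 : ∀ q ∈ L, q ≠ i → q ≠ j → (P' j q ∨ P' q j) →
      ∀ w ∈ D F ((L.erase i).erase j), sb q (mV (mV (xx i) (xx j)) (xx q)) w ∈ KK F L S P Q := by
    intro q hq hqi hqj h w hw
    rcases hP' q hq hqi hqj h with ⟨h1, h2, h3, h4⟩ | ⟨h1, h2, h3, h4⟩
    · exact L4 hi hj hq hij hqi.symm hqj.symm hw h1 h2 h3 h4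
    · exact L4' hc hi hj hq hij hqi.symm hqj.symm hw h1 h2 h3 h4
  refine KK_ind (p := fun h => sb j (mV (xx i) (xx j)) h ∈ KK F L S P Q) ?_ ?_ ?_ ?_ ?_ hQ hh
  · exact Submodule.zero_mem _
  · exact fun f g hf hg => Submodule.add_mem _ hf hg
  · exact fun r f hf => Submodule.smul_mem _ r hf
  · intro p hp q hq hpq h w hw
    have hpi := Finset.ne_of_mem_erase hp
    have hqi := Finset.ne_of_mem_erase hq
    have hpL := Finset.mem_of_mem_erase hp
    have hqL := Finset.mem_of_mem_erase hq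
    rw [sb_mul, sb_sV]
    rcases eq_or_ne p j with rfl | hpj
    · rw [sbV_xx_self, sbV_xx_ne hpq.symm, sb_indep hw (by
        intro h1
        exact (Finset.notMem_erase p _) (Finset.mem_of_mem_erase h1))]
      exact base q hqL hqi hpq.symm (Or.inl h) w hw
    · rcases eq_or_ne q j with rfl | hqj
      · rw [sbV_xx_self, sbV_xx_ne hpq, sb_indep hw (Finset.notMem_erase q _), sV_symm]
        rw [Finset.erase_right_comm] at hw
        exact base p hpL hpi hpq (Or.inr h) w hw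
      · rw [sbV_xx_ne hpj, sbV_xx_ne hqj]
        refine KS hpL hqL hpq (hS p hpL q hqL hpq hpi hqi hpj hqj h)
          (G_mem (L := (L.erase p).erase q) ?_ ?_ hij ?_)
        · exact Finset.mem_erase.2 ⟨hqi.symm, Finset.mem_erase.2 ⟨hpi.symm, hi⟩⟩
        · exact Finset.mem_erase.2 ⟨hqj.symm, Finset.mem_erase.2 ⟨hpj.symm, hj⟩⟩
        · refine D_cast hw ?_
          ext n
          simp only [Finset.mem_erase]
          tauto
  · intro p hp q hq hpq h w hw
    have hpi := Finset.ne_of_mem_erase hp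
    have hqi := Finset.ne_of_mem_erase hq
    have hpL := Finset.mem_of_mem_erase hp
    have hqL := Finset.mem_of_mem_erase hq
    rcases eq_or_ne p j with rfl | hpj
    · rw [gam_comp hpq hw]
      exact bas2 q hqL hqi hpq.symm (Or.inl h) w hw
    · rcases eq_or_ne q j with rfl | hqj
      · obtain ⟨w', hw', e⟩ := flip hp hq hw hpq
        rw [e, gam_comp hpq.symm hw']
        exact bas2 p hpL hpi hpq (Or.inr h) w' hw'
      · rw [gam_comm hpj.symm hqi.symm hqj.symm]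
        refine KP hpL hqL hpq (hP p hpL q hqL hpq hpi hqi hpj hqj h)
          (G_mem (L := L.erase p) ?_ ?_ hij ?_)
        · exact Finset.mem_erase.2 ⟨hpi.symm, hi⟩
        · exact Finset.mem_erase.2 ⟨hpj.symm, hj⟩
        · refine D_cast hw ?_
          ext n
          simp only [Finset.mem_erase]
          tauto

/-- exchanges of letters different from `j` commute with the map -/
theorem gam_rr {p q : ℕ} (hpi : p ≠ i) (hqi : q ≠ i) (hpj : p ≠ j) (hqj : q ≠ j) (w : SF F) :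
    sb j (mV (xx i) (xx j)) (rr p q w) = rr p q (sb j (mV (xx i) (xx j)) w) := by
  refine Eq.trans ?_ (ren_sb (Equiv.swap p q) j (mV (xx i) (xx j)) w).symm
  rw [renV_mV, renV_xx, renV_xx, Equiv.swap_apply_of_ne_of_ne hpi.symm hqi.symm,
    Equiv.swap_apply_of_ne_of_ne hpj.symm hqj.symm]

end X

end Pool.Agent.Malc
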