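import Pool.Agent.Malc.X.Sep
import Pool.Agent.Malc.X.IdsA

/-! # Theorem X: the elimination identities -/

set_option autoImplicit false

namespace Pool.Agent.Malc

universe u

namespace X

open CPA Finset

variable {F : Type u} [Field F]

/-! ### identities in a cross product algebra -/

section pointwise

variable (h2 : (2 : F) ≠ 0) (A : CPA F)
include h2

theorem two_inj {x y : A.E} (h : (2 : A.S) • x = (2 : A.S) • y) : x = y := by
  have h3 : algebraMap F A.S (2⁻¹) * 2 = 1 := by
    have h4 : (2 : A.S) = algebraMap F A.S 2 := by rw [map_ofNat]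
    rw [h4, ← map_mul, inv_mul_cancel₀ h2, map_one]
  have h5 := congrArg (fun z => algebraMap F A.S (2⁻¹) • z) h
  simp only [← mul_smul, h3, one_smul] at h5
  exact h5

/-- the operator `rho` vanishes -/
theorem rho2 (a b e c : A.E) :
    A.mul c (A.mul (A.mul a b) e - A.s a e • b + A.s b e • a) +
      (A.s c (A.mul a b) • e - A.s c e • A.mul a b + A.s c (A.mul b e) • a -
        A.s c a • A.mul b e + A.s c (A.mul e a) • b - A.s c b • A.mul e a) = 0 := by
  have m1 := A.main c (A.mul a b) e
  have m2 := congrArg (fun z => A.mul z e) (A.main c a b)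
  have m3 := A.main (A.mul c a) b e
  have m4 := A.main c a (A.mul b e)
  have m5 := congrArg (fun z => A.mul c z) (A.main a b e)
  have a1 := A.anti e a
  have s1 := A.assoc a b e
  have s2 := A.assoc c a b
  have s3 := A.assoc c a e
  simp only [map_add, map_sub, map_smul, LinearMap.add_apply, LinearMap.sub_apply,
    LinearMap.smul_apply] at m2 m5
  rw [s1] at m1
  rw [s2, s3] at m3
  apply two_inj h2 A
  simp only [map_add, map_sub, map_smul, a1, map_neg, smul_zero]
  linear_combination (norm := module) m1 - m2 + m3 - m4 + m5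

/-- the tensor identity for two letters `a`, `b` and a vector `x` -/
theorem brk (x a b B C : A.E) :
    A.s B (A.mul x a) * A.s C b - A.s B b * A.s C (A.mul x a) - A.s B (A.mul x b) * A.s C a +
      A.s B a * A.s C (A.mul x b) =
    A.s (A.mul (A.mul C B) x) (A.mul a b) - A.s x b * A.s C (A.mul B a) +
      A.s x a * A.s C (A.mul B b) - A.s B (A.mul a b) * A.s C x + A.s B x * A.s C (A.mul a b) := by
  have r := congrArg (fun z => A.s C z) (rho2 h2 A x a b B)
  have m := congrArg (fun z => A.s C (A.mul B z)) (A.main x a b)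
  have a1 := A.anti b x
  have t := A.assoc (A.mul C B) x (A.mul a b)
  have t2 := A.assoc C B (A.mul x (A.mul a b))
  simp only [map_add, map_sub, map_smul, a1, map_neg, smul_eq_mul, map_zero, smul_neg] at r m
  linear_combination r - m - t - t2

/-- the determinant of the forms with three letters -/
theorem det_id (U B C z0 z1 z2 : A.E) :
    2 * (A.s U z0 * A.s B z1 * A.s C z2 - A.s U z0 * A.s B z2 * A.s C z1 -
        A.s U z1 * A.s B z0 * A.s C z2 + A.s U z1 * A.s B z2 * A.s C z0 +
        A.s U z2 * A.s B z0 * A.s C z1 - A.s U z2 * A.s B z1 * A.s C z0) =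
      A.s (A.s C (A.mul U z0) • B - A.s (A.mul U z0) B • C - A.mul (A.mul C B) (A.mul U z0))
          (A.mul z1 z2) +
        A.s (A.s C z1 • A.mul B U - A.s B z1 • A.mul C U - A.s C (A.mul z1 B) • U)
          (A.mul z0 z2) +
        A.s (A.s C (A.mul z2 B) • U + A.s B z2 • A.mul C U - A.s C z2 • A.mul B U)
          (A.mul z0 z1) +
        A.s z0 z1 * (A.s B z2 * A.s C U - A.s C z2 * A.s B U) +
        A.s z0 z2 * (A.s C z1 * A.s B U - A.s B z1 * A.s C U) := by
  have r := brk h2 A (A.mul U z0) z1 z2 B C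
  have m1 := A.main U z0 z1
  have m2 := A.main U z0 z2
  have b1 := congrArg (fun z => A.s B z) m1
  have c1 := congrArg (fun z => A.s C z) m1
  have b2 := congrArg (fun z => A.s B z) m2
  have c2 := congrArg (fun z => A.s C z) m2
  have e1 := A.assoc U z0 z1
  have e2 := A.assoc U z0 z2
  have f1 := A.anti z1 B
  have f2 := A.anti z2 B
  have g1 := A.assoc C U (A.mul z0 z1)
  have g2 := A.assoc C U (A.mul z0 z2)
  have g3 := A.assoc B U (A.mul z0 z1)
  have g4 := A.assoc B U (A.mul z0 z2)
  have s2 := A.symm B (A.mul U z0)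
  simp only [map_add, map_sub, map_smul, smul_eq_mul, LinearMap.sub_apply, LinearMap.add_apply,
    LinearMap.smul_apply, f1, f2, map_neg] at b1 c1 b2 c2 ⊢
  linear_combination - r + A.s C z2 * b1 - A.s B z2 * c1 - A.s C z1 * b2 + A.s B z1 * c2 +
    A.s C (A.mul B z1) * e2 - A.s C (A.mul B z2) * e1 + A.s C z2 * g3 - A.s B z2 * g1 -
    A.s C z1 * g4 + A.s B z1 * g2 - A.s C (A.mul z1 z2) * s2

end pointwise

variable {L : Finset ℕ} {S P Q : ℕ → ℕ → Prop} {i j k l q : ℕ} {w u : SF F}

/-! ### sets of letters -/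

theorem rp_set (hj : j ∈ L) (hjq : j ≠ q) : (L.erase j).erase q ∪ {j} = L.erase q := by
  rw [Finset.erase_right_comm, Finset.union_comm, ← Finset.insert_eq]
  exact Finset.insert_erase (Finset.mem_erase.2 ⟨hjq, hj⟩)

/-- a letter instead of another one -/
theorem rp_mem (hj : j ∈ L) (hq : q ∈ L) (hjq : j ≠ q) (hw : w ∈ D F (L.erase j)) :
    sb q (xx j) w ∈ D F (L.erase q) := by
  refine D_cast (sb_mem hw (Finset.mem_erase.2 ⟨hjq.symm, hq⟩) (xx_mem j) ?_) (rp_set hj hjq)
  rw [Finset.disjoint_singleton_right, Finset.mem_erase, Finset.mem_erase]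
  tauto

/-- products, in the form `s(e, x_i x_j)` -/
theorem KPe (hi : i ∈ L) (hj : j ∈ L) (hij : i ≠ j) (h : P i j) {e : VF F}
    (he : e ∈ E F ((L.erase i).erase j)) : sV e (mV (xx i) (xx j)) ∈ KK F L S P Q := by
  have h1 : sb j (mV (xx i) (xx j)) (sV e (xx j)) = sV e (mV (xx i) (xx j)) := by
    rw [sb_sV, sbV_xx_self, sbV_indep he (Finset.notMem_erase _ _)]
  rw [← h1]
  refine KP hi hj hij h (D_cast (D_s he (xx_mem j) ?_) ?_)
  · rw [Finset.disjoint_singleton_right]
    exact Finset.notMem_erase _ _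
  · rw [Finset.union_comm, ← Finset.insert_eq]
    exact Finset.insert_erase (Finset.mem_erase.2 ⟨hij.symm, hj⟩)

theorem KPe' (hi : i ∈ L) (hj : j ∈ L) (hij : i ≠ j) (h : P j i) {e : VF F}
    (he : e ∈ E F ((L.erase i).erase j)) : sV e (mV (xx i) (xx j)) ∈ KK F L S P Q := by
  rw [mV_anti, sV_neg_right]
  rw [Finset.erase_right_comm] at he
  exact Submodule.neg_mem _ (KPe hj hi hij.symm h he)

theorem half_mem {K : Submodule F (SF F)} (h2 : (2 : F) ≠ 0) {f : SF F} (h : f + f ∈ K) : f ∈ K := by
  have h1 := K.smul_mem (2⁻¹) h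
  rwa [← two_smul F f, smul_smul, inv_mul_cancel₀ h2, one_smul] at h1

/-- the exchange of the letters `i` and `q` in `w(q := W)` -/
theorem rr_sb (hiq : i ≠ q) (W : VF F) (hw : w ∈ D F (L.erase i)) :
    rr i q (sb q W w) = sb q (renV (Equiv.swap i q) W) w := by
  unfold rr
  rw [ren_sb, Equiv.swap_apply_right]
  funext A x
  refine D_congr hw A ?_
  intro n hn
  have hni : n ≠ i := Finset.ne_of_mem_erase hn
  rcases eq_or_ne n q with rfl | h
  · show Function.update x i _ (Equiv.swap i n n) = Function.update x n _ n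
    rw [Equiv.swap_apply_right, Function.update_self, Function.update_self]
  · show Function.update x i _ (Equiv.swap i q n) = Function.update x q _ n
    rw [Equiv.swap_apply_of_ne_of_ne hni h, Function.update_of_ne hni, Function.update_of_ne h]

/-! ### renaming of the relations -/

theorem KK_symm {h : SF F}
    (hh : h ∈ KK F L (fun p q => S p q ∨ S q p) (fun p q => P p q ∨ P q p) Q) :
    h ∈ KK F L S P Q := by
  refine KK_ind (p := fun h => h ∈ KK F L S P Q) (Submodule.zero_mem _)
    (fun f g => Submodule.add_mem _) (fun r f => Submodule.smul_mem _ r) ?_ ?_ ?_ hh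
  · rintro i hi j hj hij (h | h) w hw
    · exact KS hi hj hij h hw
    · exact KS' hi hj hij h hw
  · rintro i hi j hj hij (h | h) w hw
    · exact KP hi hj hij h hw
    · exact KP' hi hj hij h hw
  · exact fun i hi j hj hij h w hw => KQ hi hj hij h hw

/-- renaming of the letters in the span of the relations -/
theorem KK_ren (σ : Equiv.Perm ℕ) (hL : L.image σ = L) {S' P' Q' : ℕ → ℕ → Prop}
    (hS : ∀ i j, S i j → S' (σ i) (σ j)) (hP : ∀ i j, P i j → P' (σ i) (σ j))
    (hQ : ∀ i j, Q i j → Q' (σ i) (σ j)) {h : SF F} (hh : h ∈ KK F L S P Q) :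
    ren σ h ∈ KK F L S' P' Q' := by
  have hm : ∀ i ∈ L, σ i ∈ L := fun i hi => by
    rw [← hL]
    exact Finset.mem_image_of_mem _ hi
  have he : ∀ (M : Finset ℕ) (i : ℕ), (M.erase i).image σ = (M.image σ).erase (σ i) := fun M i =>
    Finset.image_erase σ.injective _ _
  refine KK_ind (p := fun h => ren σ h ∈ KK F L S' P' Q') (Submodule.zero_mem _)
    (fun f g => Submodule.add_mem _) (fun r f => Submodule.smul_mem _ r) ?_ ?_ ?_ hh
  · intro i hi j hj hij h w hw
    have h1 := ren_mem hw σ.injective
    rw [he, he, hL] at h1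
    exact KS (hm i hi) (hm j hj) (fun e => hij (σ.injective e)) (hS i j h) h1
  · intro i hi j hj hij h w hw
    have h1 := ren_mem hw σ.injective
    rw [he, hL] at h1
    rw [ren_sb]
    exact KP (hm i hi) (hm j hj) (fun e => hij (σ.injective e)) (hP i j h) h1
  · intro i hi j hj hij h w hw
    have h1 := ren_mem hw σ.injective
    rw [hL] at h1
    have h2 := KQ (S := S') (P := P') (hm i hi) (hm j hj) (fun e => hij (σ.injective e))
      (hQ i j h) h1
    have h3 : rr (σ i) (σ j) (ren σ w) = ren σ (rr i j w) := by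
      funext A x
      show w A (fun n => x (Equiv.swap (σ i) (σ j) (σ n))) = w A (fun n => x (σ (Equiv.swap i j n)))
      congr 1
      funext n
      rw [Equiv.swap_apply_apply]
      simp
    rw [h3] at h2
    exact h2

/-- the exchange of two letters in the span of the relations -/
theorem KK_rr {a b : ℕ} (ha : a ∈ L) (hb : b ∈ L) {S' P' Q' : ℕ → ℕ → Prop}
    (hS : ∀ i j, S i j → S' (Equiv.swap a b i) (Equiv.swap a b j))
    (hP : ∀ i j, P i j → P' (Equiv.swap a b i) (Equiv.swap a b j))
    (hQ : ∀ i j, Q i j → Q' (Equiv.swap a b i) (Equiv.swap a b j)) {h : SF F}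
    (hh : h ∈ KK F L S P Q) : rr a b h ∈ KK F L S' P' Q' :=
  KK_ren (Equiv.swap a b) (image_swap ha hb) hS hP hQ hh

/-! ### three letters -/

/-- the ordered pairs of the letters `j`, `k`, `l` -/
def Rel3 (j k l : ℕ) : ℕ → ℕ → Prop := fun p q => (p = j ∧ q = k) ∨ (p = j ∧ q = l) ∨ (p = k ∧ q = l)

/-- all pairs of the letters `j`, `k`, `l` -/
def Rel3s (j k l : ℕ) : ℕ → ℕ → Prop := fun p q =>
  p ∈ ({j, k, l} : Finset ℕ) ∧ q ∈ ({j, k, l} : Finset ℕ)

/-- the empty relation -/
def NR : ℕ → ℕ → Prop := fun _ _ => False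

/-- the antisymmetrisation in three letters -/
def alt3 (j k l : ℕ) (u : SF F) : SF F :=
  u - rr j k u - rr k l u - rr j l u + rr j k (rr k l u) + rr k l (rr j k u)

theorem KK_T3 {h : SF F} (hh : h ∈ KK F L (Rel3s j k l) (Rel3s j k l) NR) :
    h ∈ KK F L (Rel3 j k l) (Rel3 j k l) NR := by
  have key : ∀ p ∈ L, ∀ q ∈ L, p ≠ q → Rel3s j k l p q → Rel3 j k l p q ∨ Rel3 j k l q p := by
    intro p _ q _ hpq h
    unfold Rel3s at h
    unfold Rel3
    simp only [Finset.mem_insert, Finset.mem_singleton] at h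
    obtain ⟨rfl | rfl | rfl, h⟩ := h <;> rcases h with rfl | rfl | rfl <;> simp_all
  exact KK_symm (KK_mono rfl key key (fun _ _ _ _ _ h => h) hh)

theorem T3s_swap {a b p q : ℕ} (ha : a ∈ ({j, k, l} : Finset ℕ)) (hb : b ∈ ({j, k, l} : Finset ℕ))
    (h : Rel3s j k l p q) : Rel3s j k l (Equiv.swap a b p) (Equiv.swap a b q) := by
  have key : ∀ n ∈ ({j, k, l} : Finset ℕ), Equiv.swap a b n ∈ ({j, k, l} : Finset ℕ) := by
    intro n hn
    rw [← image_swap ha hb]
    exact Finset.mem_image_of_mem _ hn
  exact ⟨key p h.1, key q h.2⟩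

theorem T3s_rr {a b : ℕ} (ha : a ∈ ({j, k, l} : Finset ℕ)) (hb : b ∈ ({j, k, l} : Finset ℕ))
    (hL : ({j, k, l} : Finset ℕ) ⊆ L) {h : SF F} (hh : h ∈ KK F L (Rel3s j k l) (Rel3s j k l) NR) :
    rr a b h ∈ KK F L (Rel3s j k l) (Rel3s j k l) NR :=
  KK_rr (hL ha) (hL hb) (fun _ _ h => T3s_swap ha hb h) (fun _ _ h => T3s_swap ha hb h)
    (fun _ _ h => h) hh

theorem alt3_T3s (hL : ({j, k, l} : Finset ℕ) ⊆ L) {h : SF F}
    (hh : h ∈ KK F L (Rel3s j k l) (Rel3s j k l) NR) :
    alt3 j k l h ∈ KK F L (Rel3s j k l) (Rel3s j k l) NR := by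
  have hj : j ∈ ({j, k, l} : Finset ℕ) := by simp
  have hk : k ∈ ({j, k, l} : Finset ℕ) := by simp
  have hl : l ∈ ({j, k, l} : Finset ℕ) := by simp
  unfold alt3
  have h1 := T3s_rr hj hk hL hh
  have h2 := T3s_rr hk hl hL hh
  have h3 := T3s_rr hj hl hL hh
  exact Submodule.add_mem _ (Submodule.add_mem _ (Submodule.sub_mem _ (Submodule.sub_mem _
    (Submodule.sub_mem _ hh h1) h2) h3) (T3s_rr hj hk hL h2)) (T3s_rr hk hl hL h1)

/-- **three letters are separated** -/
theorem sep3 {p : SF F → Prop} (h0 : p 0) (hadd : ∀ a b, p a → p b → p (a + b))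
    (hsmul : ∀ (r : F) a, p a → p (r • a)) (hj : j ∈ L) (hk : k ∈ L) (hl : l ∈ L)
    (hjk : j ≠ k) (hjl : j ≠ l) (hkl : k ≠ l)
    (hK : ∀ f ∈ KK F L (Rel3s j k l) (Rel3s j k l) NR, p f)
    (hC : ∀ M1 M2 M3 a b c, a ∈ E F M1 → b ∈ E F M2 → c ∈ E F M3 → Disjoint M1 M2 →
      Disjoint M1 M3 → Disjoint M2 M3 → M1 ∪ M2 ∪ M3 = ((L.erase j).erase k).erase l →
      p (sV a (xx j) * sV b (xx k) * sV c (xx l))) (hu : u ∈ D F L) : p u := by
  have hT : ∀ a ∈ ({j, k, l} : Finset ℕ), ∀ b ∈ ({j, k, l} : Finset ℕ), Rel3s j k l a b :=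
    fun a ha b hb => ⟨ha, hb⟩
  have hj' : j ∈ ({j, k, l} : Finset ℕ) := by simp
  have hk' : k ∈ ({j, k, l} : Finset ℕ) := by simp
  have hl' : l ∈ ({j, k, l} : Finset ℕ) := by simp
  have hneg : ∀ a, p a → p (-a) := fun a ha => by
    have := hsmul (-1) a ha
    rwa [neg_smul, one_smul] at this
  have h1 := sep2 hj hk hjk hu
  clear hu
  unfold Op2 at h1
  induction h1 using Submodule.span_induction with
  | zero => exact h0
  | add x y _ _ hx hy => exact hadd x y hx hy
  | smul r x _ hx => exact hsmul r x hx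
  | mem x hx =>
    rcases hx with (⟨l', hl1, rfl⟩ | ⟨e, he, rfl⟩) | ⟨M, N, b, c, hb, hc, hd, hL, rfl⟩
    · rw [mul_comm]
      exact hK _ (KS hj hk hjk (hT _ hj' _ hk') hl1)
    · exact hK _ (KPe hj hk hjk (hT _ hj' _ hk') he)
    · have hL' : ∀ n, n ∈ M ∨ n ∈ N ↔ n ≠ k ∧ n ≠ j ∧ n ∈ L := by
        intro n
        have := Finset.ext_iff.1 hL n
        simpa only [Finset.mem_union, Finset.mem_erase] using this
      have hjM : j ∉ M := fun h => ((hL' j).1 (Or.inl h)).2.1 rfl
      have hjN : j ∉ N := fun h => ((hL' j).1 (Or.inr h)).2.1 rfl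
      have hkM : k ∉ M := fun h => ((hL' k).1 (Or.inl h)).1 rfl
      have hkN : k ∉ N := fun h => ((hL' k).1 (Or.inr h)).1 rfl
      have hd' := Finset.disjoint_left.1 hd
      rcases (hL' l).2 ⟨hkl.symm, hjl.symm, hl⟩ with hlM | hlN
      · have hlN : l ∉ N := fun h => hd' hlM h
        refine Op_ind (p := fun b => p (sV b (xx j) * sV c (xx k))) ?_ ?_ ?_ ?_ ?_ ?_
          (sepE hlM hb)
        · rw [sV_zero_left, zero_mul]; exact h0
        · intro a b ha hb; rw [sV_add_left, add_mul]; exact hadd _ _ ha hb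
        · intro a ha; rw [sV_neg_left, neg_mul]; exact hneg _ ha
        · intro l' hl1
          have e1 : sV (cV l' (xx l)) (xx j) * sV c (xx k) =
              sV (xx l) (xx j) * (l' * sV c (xx k)) := by
            rw [sV_cV_left]
            ring
          rw [e1]
          refine hK _ (KS hl hj hjl.symm (hT _ hl' _ hj') (D_cast (D_mul hl1
            (D_s hc (xx_mem k) (by rwa [Finset.disjoint_singleton_right])) ?_) ?_))
          · rw [Finset.disjoint_left]
            intro n hn hn2
            simp only [Finset.mem_union, Finset.mem_singleton, Finset.mem_erase] at hn hn2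
            rcases hn2 with h | rfl
            · exact hd' hn.2 h
            · exact hkM hn.2
          · ext n
            have h := hL' n
            simp only [Finset.mem_union, Finset.mem_erase, Finset.mem_singleton]
            grind
        · intro e he
          have e1 : sV (mV e (xx l)) (xx j) * sV c (xx k) =
              sV (cV (sV c (xx k)) e) (mV (xx l) (xx j)) := by
            rw [sV_assoc, sV_cV_left]
            ring
          rw [e1]
          refine hK _ (KPe hl hj hjl.symm (hT _ hl' _ hj') (E_cast (E_c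
            (D_s hc (xx_mem k) (by rwa [Finset.disjoint_singleton_right])) he ?_) ?_))
          · rw [Finset.disjoint_right]
            intro n hn hn2
            simp only [Finset.mem_union, Finset.mem_singleton, Finset.mem_erase] at hn hn2
            rcases hn2 with h | rfl
            · exact hd' hn.2 h
            · exact hkM hn.2
          · ext n
            have h := hL' n
            simp only [Finset.mem_union, Finset.mem_erase, Finset.mem_singleton]
            grind
        · intro M' N' b' c' hb' hc' hd2 hL2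
          have e1 : sV (cV (sV c' (xx l)) b') (xx j) * sV c (xx k) =
              sV b' (xx j) * sV c (xx k) * sV c' (xx l) := by
            rw [sV_cV_left]
            ring
          rw [e1]
          have hL2' : ∀ n, n ∈ M' ∨ n ∈ N' ↔ n ≠ l ∧ n ∈ M := by
            intro n
            have := Finset.ext_iff.1 hL2 n
            simpa only [Finset.mem_union, Finset.mem_erase] using this
          refine hC M' N N' b' c c' hb' hc hc' ?_ hd2 ?_ ?_
          · rw [Finset.disjoint_left]
            intro n hn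
            exact hd' ((hL2' n).1 (Or.inl hn)).2
          · rw [Finset.disjoint_right]
            intro n hn
            exact hd' ((hL2' n).1 (Or.inr hn)).2
          · ext n
            have h := hL' n
            have h2 := hL2' n
            simp only [Finset.mem_union, Finset.mem_erase]
            grind
      · have hlM : l ∉ M := fun h => hd' h hlN
        refine Op_ind (p := fun c => p (sV b (xx j) * sV c (xx k))) ?_ ?_ ?_ ?_ ?_ ?_
          (sepE hlN hc)
        · rw [sV_zero_left, mul_zero]; exact h0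
        · intro a b ha hb; rw [sV_add_left, mul_add]; exact hadd _ _ ha hb
        · intro a ha; rw [sV_neg_left, mul_neg]; exact hneg _ ha
        · intro l' hl1
          have e1 : sV b (xx j) * sV (cV l' (xx l)) (xx k) =
              sV (xx l) (xx k) * (sV b (xx j) * l') := by
            rw [sV_cV_left]
            ring
          rw [e1]
          refine hK _ (KS hl hk hkl.symm (hT _ hl' _ hk') (D_cast (D_mul
            (D_s hb (xx_mem j) (by rwa [Finset.disjoint_singleton_right])) hl1 ?_) ?_))
          · rw [Finset.disjoint_right]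
            intro n hn hn2
            simp only [Finset.mem_union, Finset.mem_singleton, Finset.mem_erase] at hn hn2
            rcases hn2 with h | rfl
            · exact hd' h hn.2
            · exact hjN hn.2
          · ext n
            have h := hL' n
            simp only [Finset.mem_union, Finset.mem_erase, Finset.mem_singleton]
            grind
        · intro e he
          have e1 : sV b (xx j) * sV (mV e (xx l)) (xx k) =
              sV (cV (sV b (xx j)) e) (mV (xx l) (xx k)) := by
            rw [sV_assoc, sV_cV_left]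
          rw [e1]
          refine hK _ (KPe hl hk hkl.symm (hT _ hl' _ hk') (E_cast (E_c
            (D_s hb (xx_mem j) (by rwa [Finset.disjoint_singleton_right])) he ?_) ?_))
          · rw [Finset.disjoint_right]
            intro n hn hn2
            simp only [Finset.mem_union, Finset.mem_singleton, Finset.mem_erase] at hn hn2
            rcases hn2 with h | rfl
            · exact hd' h hn.2
            · exact hjN hn.2
          · ext n
            have h := hL' n
            simp only [Finset.mem_union, Finset.mem_erase, Finset.mem_singleton]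
            grind
        · intro M' N' b' c' hb' hc' hd2 hL2
          have e1 : sV b (xx j) * sV (cV (sV c' (xx l)) b') (xx k) =
              sV b (xx j) * sV b' (xx k) * sV c' (xx l) := by
            rw [sV_cV_left]
            ring
          rw [e1]
          have hL2' : ∀ n, n ∈ M' ∨ n ∈ N' ↔ n ≠ l ∧ n ∈ N := by
            intro n
            have := Finset.ext_iff.1 hL2 n
            simpa only [Finset.mem_union, Finset.mem_erase] using this
          refine hC M M' N' b b' c' hb hb' hc' ?_ ?_ hd2 ?_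
          · rw [Finset.disjoint_right]
            intro n hn hn2
            exact hd' hn2 ((hL2' n).1 (Or.inl hn)).2
          · rw [Finset.disjoint_right]
            intro n hn hn2
            exact hd' hn2 ((hL2' n).1 (Or.inr hn)).2
          · ext n
            have h := hL' n
            have h2 := hL2' n
            simp only [Finset.mem_union, Finset.mem_erase]
            grind

/-! ### the determinant -/

theorem renV_of_notMem {M : Finset ℕ} {a : VF F} (h : a ∈ E F M) (hi : i ∉ M) (hj : j ∉ M) :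
    renV (Equiv.swap i j) a = a := by
  funext A x
  refine E_congr h A ?_
  intro n hn
  show x (Equiv.swap i j n) = x n
  rw [Equiv.swap_apply_of_ne_of_ne (fun e : n = i => hi (e ▸ hn)) (fun e : n = j => hj (e ▸ hn))]

theorem mem_c {A B C M : Finset ℕ} {a b c : VF F} (ha : a ∈ E F A) (hb : b ∈ E F B)
    (hc : c ∈ E F C) (h1 : Disjoint A B) (h2 : Disjoint A C) (h3 : Disjoint B C)
    (hM : A ∪ B ∪ C = M) : cV (sV a b) c ∈ E F M :=
  E_cast (E_c (D_s ha hb h1) hc (Finset.disjoint_union_left.2 ⟨h2, h3⟩)) hM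

theorem mem_m {A B C M : Finset ℕ} {a b c : VF F} (ha : a ∈ E F A) (hb : b ∈ E F B)
    (hc : c ∈ E F C) (h1 : Disjoint A B) (h2 : Disjoint A C) (h3 : Disjoint B C)
    (hM : A ∪ B ∪ C = M) : mV (mV a b) c ∈ E F M :=
  E_cast (E_m (E_m ha hb h1) hc (Finset.disjoint_union_left.2 ⟨h2, h3⟩)) hM

theorem mem_ss {A B C D' M : Finset ℕ} {a b c d : VF F} (ha : a ∈ E F A) (hb : b ∈ E F B)
    (hc : c ∈ E F C) (hd : d ∈ E F D') (h1 : Disjoint A B) (h2 : Disjoint C D')
    (h3 : Disjoint (A ∪ B) (C ∪ D')) (hM : (A ∪ B) ∪ (C ∪ D') = M) :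
    sV a b * sV c d ∈ D F M :=
  D_cast (D_mul (D_s ha hb h1) (D_s hc hd h2) h3) hM

/-- **the determinant** -/
theorem det3_mem (hc2 : (2 : F) ≠ 0) (hj : j ∈ L) (hk : k ∈ L) (hl : l ∈ L)
    (hjk : j ≠ k) (hjl : j ≠ l) (hkl : k ≠ l) {M1 M2 M3 : Finset ℕ} {a b c : VF F}
    (ha : a ∈ E F M1) (hb : b ∈ E F M2) (hc : c ∈ E F M3) (d12 : Disjoint M1 M2)
    (d13 : Disjoint M1 M3) (d23 : Disjoint M2 M3)
    (hM : M1 ∪ M2 ∪ M3 = ((L.erase j).erase k).erase l) :
    alt3 j k l (sV a (xx j) * sV b (xx k) * sV c (xx l)) ∈ KK F L (Rel3s j k l) (Rel3s j k l) NR := by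
  have hT : ∀ a ∈ ({j, k, l} : Finset ℕ), ∀ b ∈ ({j, k, l} : Finset ℕ), Rel3s j k l a b :=
    fun a ha b hb => ⟨ha, hb⟩
  have hj' : j ∈ ({j, k, l} : Finset ℕ) := by simp
  have hk' : k ∈ ({j, k, l} : Finset ℕ) := by simp
  have hl' : l ∈ ({j, k, l} : Finset ℕ) := by simp
  have hL' : ∀ n, (n ∈ M1 ∨ n ∈ M2) ∨ n ∈ M3 ↔ n ≠ l ∧ n ≠ k ∧ n ≠ j ∧ n ∈ L := by
    intro n
    have := Finset.ext_iff.1 hM n
    simpa only [Finset.mem_union, Finset.mem_erase] using this
  have e12 := Finset.disjoint_left.1 d12
  have e13 := Finset.disjoint_left.1 d13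
  have e23 := Finset.disjoint_left.1 d23
  have j1 : j ∉ M1 := by grind
  have j2 : j ∉ M2 := by grind
  have j3 : j ∉ M3 := by grind
  have k1 : k ∉ M1 := by grind
  have k2 : k ∉ M2 := by grind
  have k3 : k ∉ M3 := by grind
  have l1 : l ∉ M1 := by grind
  have l2 : l ∉ M2 := by grind
  have l3 : l ∉ M3 := by grind
  have s1 : rr j k (sV a (xx j) * sV b (xx k) * sV c (xx l)) =
      sV a (xx k) * sV b (xx j) * sV c (xx l) := by
    have h : rr j k (sV a (xx j) * sV b (xx k) * sV c (xx l)) =
      sV (renV (Equiv.swap j k) a) (xx (Equiv.swap j k j)) *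
        sV (renV (Equiv.swap j k) b) (xx (Equiv.swap j k k)) *
        sV (renV (Equiv.swap j k) c) (xx (Equiv.swap j k l)) := rfl
    rw [h, renV_of_notMem ha j1 k1, renV_of_notMem hb j2 k2, renV_of_notMem hc j3 k3,
      Equiv.swap_apply_left, Equiv.swap_apply_right, Equiv.swap_apply_of_ne_of_ne hjl.symm hkl.symm]
  have s2 : rr k l (sV a (xx j) * sV b (xx k) * sV c (xx l)) =
      sV a (xx j) * sV b (xx l) * sV c (xx k) := by
    have h : rr k l (sV a (xx j) * sV b (xx k) * sV c (xx l)) =
      sV (renV (Equiv.swap k l) a) (xx (Equiv.swap k l j)) *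
        sV (renV (Equiv.swap k l) b) (xx (Equiv.swap k l k)) *
        sV (renV (Equiv.swap k l) c) (xx (Equiv.swap k l l)) := rfl
    rw [h, renV_of_notMem ha k1 l1, renV_of_notMem hb k2 l2, renV_of_notMem hc k3 l3,
      Equiv.swap_apply_left, Equiv.swap_apply_right, Equiv.swap_apply_of_ne_of_ne hjk hjl]
  have s3 : rr j l (sV a (xx j) * sV b (xx k) * sV c (xx l)) =
      sV a (xx l) * sV b (xx k) * sV c (xx j) := by
    have h : rr j l (sV a (xx j) * sV b (xx k) * sV c (xx l)) =
      sV (renV (Equiv.swap j l) a) (xx (Equiv.swap j l j)) *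
        sV (renV (Equiv.swap j l) b) (xx (Equiv.swap j l k)) *
        sV (renV (Equiv.swap j l) c) (xx (Equiv.swap j l l)) := rfl
    rw [h, renV_of_notMem ha j1 l1, renV_of_notMem hb j2 l2, renV_of_notMem hc j3 l3,
      Equiv.swap_apply_left, Equiv.swap_apply_right, Equiv.swap_apply_of_ne_of_ne hjk.symm hkl]
  have s4 : rr j k (sV a (xx j) * sV b (xx l) * sV c (xx k)) =
      sV a (xx k) * sV b (xx l) * sV c (xx j) := by
    have h : rr j k (sV a (xx j) * sV b (xx l) * sV c (xx k)) =
      sV (renV (Equiv.swap j k) a) (xx (Equiv.swap j k j)) *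
        sV (renV (Equiv.swap j k) b) (xx (Equiv.swap j k l)) *
        sV (renV (Equiv.swap j k) c) (xx (Equiv.swap j k k)) := rfl
    rw [h, renV_of_notMem ha j1 k1, renV_of_notMem hb j2 k2, renV_of_notMem hc j3 k3,
      Equiv.swap_apply_left, Equiv.swap_apply_right, Equiv.swap_apply_of_ne_of_ne hjl.symm hkl.symm]
  have s5 : rr k l (sV a (xx k) * sV b (xx j) * sV c (xx l)) =
      sV a (xx l) * sV b (xx j) * sV c (xx k) := by
    have h : rr k l (sV a (xx k) * sV b (xx j) * sV c (xx l)) =
      sV (renV (Equiv.swap k l) a) (xx (Equiv.swap k l k)) *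
        sV (renV (Equiv.swap k l) b) (xx (Equiv.swap k l j)) *
        sV (renV (Equiv.swap k l) c) (xx (Equiv.swap k l l)) := rfl
    rw [h, renV_of_notMem ha k1 l1, renV_of_notMem hb k2 l2, renV_of_notMem hc k3 l3,
      Equiv.swap_apply_left, Equiv.swap_apply_right, Equiv.swap_apply_of_ne_of_ne hjk hjl]
  have hid : alt3 j k l (sV a (xx j) * sV b (xx k) * sV c (xx l)) +
      alt3 j k l (sV a (xx j) * sV b (xx k) * sV c (xx l)) =
      sV (cV (sV c (mV a (xx j))) b - cV (sV (mV a (xx j)) b) c - mV (mV c b) (mV a (xx j)))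
          (mV (xx k) (xx l)) +
        sV (cV (sV c (xx k)) (mV b a) - cV (sV b (xx k)) (mV c a) - cV (sV c (mV (xx k) b)) a)
          (mV (xx j) (xx l)) +
        sV (cV (sV c (mV (xx l) b)) a + cV (sV b (xx l)) (mV c a) - cV (sV c (xx l)) (mV b a))
          (mV (xx j) (xx k)) +
        sV (xx j) (xx k) * (sV b (xx l) * sV c a - sV c (xx l) * sV b a) +
        sV (xx j) (xx l) * (sV c (xx k) * sV b a - sV b (xx k) * sV c a) := by
    unfold alt3
    rw [s1, s2, s3, s4, s5]
    funext A x
    have h := det_id hc2 A (a A x) (b A x) (c A x) (x j) (x k) (x l)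
    refine Eq.trans ?_ h
    show (A.s (a A x) (x j) * A.s (b A x) (x k) * A.s (c A x) (x l) -
        A.s (a A x) (x k) * A.s (b A x) (x j) * A.s (c A x) (x l) -
        A.s (a A x) (x j) * A.s (b A x) (x l) * A.s (c A x) (x k) -
        A.s (a A x) (x l) * A.s (b A x) (x k) * A.s (c A x) (x j) +
        A.s (a A x) (x k) * A.s (b A x) (x l) * A.s (c A x) (x j) +
        A.s (a A x) (x l) * A.s (b A x) (x j) * A.s (c A x) (x k)) +
      (A.s (a A x) (x j) * A.s (b A x) (x k) * A.s (c A x) (x l) -
        A.s (a A x) (x k) * A.s (b A x) (x j) * A.s (c A x) (x l) -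
        A.s (a A x) (x j) * A.s (b A x) (x l) * A.s (c A x) (x k) -
        A.s (a A x) (x l) * A.s (b A x) (x k) * A.s (c A x) (x j) +
        A.s (a A x) (x k) * A.s (b A x) (x l) * A.s (c A x) (x j) +
        A.s (a A x) (x l) * A.s (b A x) (x j) * A.s (c A x) (x k)) = _
    ring
  refine half_mem hc2 ?_
  rw [hid]
  have hX : mV a (xx j) ∈ E F (M1 ∪ {j}) := E_m ha (xx_mem j) (by
    rwa [Finset.disjoint_singleton_right])
  have hXk : mV (xx k) b ∈ E F ({k} ∪ M2) := E_m (xx_mem k) hb (by
    rwa [Finset.disjoint_singleton_left])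
  have hXl : mV (xx l) b ∈ E F ({l} ∪ M2) := E_m (xx_mem l) hb (by
    rwa [Finset.disjoint_singleton_left])
  have hba : mV b a ∈ E F (M2 ∪ M1) := E_m hb ha d12.symm
  have hca : mV c a ∈ E F (M3 ∪ M1) := E_m hc ha d13.symm
  refine Submodule.add_mem _ (Submodule.add_mem _ (Submodule.add_mem _ (Submodule.add_mem _
    ?_ ?_) ?_) ?_) ?_
  · refine KPe hk hl hkl (hT _ hk' _ hl') (AddSubgroup.sub_mem _ (AddSubgroup.sub_mem _ ?_ ?_) ?_)
    · exact mem_c hc hX hb (Finset.disjoint_left.2 (by grind)) d23.symm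
        (Finset.disjoint_left.2 (by grind)) (by ext n; have h := hL' n; grind)
    · exact mem_c hX hb hc (Finset.disjoint_left.2 (by grind)) (Finset.disjoint_left.2 (by grind))
        d23 (by ext n; have h := hL' n; grind)
    · exact mem_m hc hb hX d23.symm (Finset.disjoint_left.2 (by grind))
        (Finset.disjoint_left.2 (by grind)) (by ext n; have h := hL' n; grind)
  · refine KPe hj hl hjl (hT _ hj' _ hl') (AddSubgroup.sub_mem _ (AddSubgroup.sub_mem _ ?_ ?_) ?_)
    · exact mem_c hc (xx_mem k) hba (Finset.disjoint_left.2 (by grind))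
        (Finset.disjoint_left.2 (by grind)) (Finset.disjoint_left.2 (by grind))
        (by ext n; have h := hL' n; grind)
    · exact mem_c hb (xx_mem k) hca (Finset.disjoint_left.2 (by grind))
        (Finset.disjoint_left.2 (by grind)) (Finset.disjoint_left.2 (by grind))
        (by ext n; have h := hL' n; grind)
    · exact mem_c hc hXk ha (Finset.disjoint_left.2 (by grind))
        (Finset.disjoint_left.2 (by grind)) (Finset.disjoint_left.2 (by grind))
        (by ext n; have h := hL' n; grind)
  · refine KPe hj hk hjk (hT _ hj' _ hk') (AddSubgroup.sub_mem _ (AddSubgroup.add_mem _ ?_ ?_) ?_)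
    · exact mem_c hc hXl ha (Finset.disjoint_left.2 (by grind))
        (Finset.disjoint_left.2 (by grind)) (Finset.disjoint_left.2 (by grind))
        (by ext n; have h := hL' n; grind)
    · exact mem_c hb (xx_mem l) hca (Finset.disjoint_left.2 (by grind))
        (Finset.disjoint_left.2 (by grind)) (Finset.disjoint_left.2 (by grind))
        (by ext n; have h := hL' n; grind)
    · exact mem_c hc (xx_mem l) hba (Finset.disjoint_left.2 (by grind))
        (Finset.disjoint_left.2 (by grind)) (Finset.disjoint_left.2 (by grind))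
        (by ext n; have h := hL' n; grind)
  · refine KS hj hk hjk (hT _ hj' _ hk') (Submodule.sub_mem _ ?_ ?_)
    · exact mem_ss hb (xx_mem l) hc ha (Finset.disjoint_left.2 (by grind)) d13.symm
        (Finset.disjoint_left.2 (by grind)) (by ext n; have h := hL' n; grind)
    · exact mem_ss hc (xx_mem l) hb ha (Finset.disjoint_left.2 (by grind)) d12.symm
        (Finset.disjoint_left.2 (by grind)) (by ext n; have h := hL' n; grind)
  · refine KS hj hl hjl (hT _ hj' _ hl') (Submodule.sub_mem _ ?_ ?_)
    · exact mem_ss hc (xx_mem k) hb ha (Finset.disjoint_left.2 (by grind)) d12.symm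
        (Finset.disjoint_left.2 (by grind)) (by ext n; have h := hL' n; grind)
    · exact mem_ss hb (xx_mem k) hc ha (Finset.disjoint_left.2 (by grind)) d13.symm
        (Finset.disjoint_left.2 (by grind)) (by ext n; have h := hL' n; grind)

end X

end Pool.Agent.Malc
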