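import Pool.Agent.Malc.X.Clo

/-! # Theorem X: substitution, renaming, multilinearity, naturality of the families -/

set_option autoImplicit false

namespace Pool.Agent.Malc

universe u

namespace X

open CPA Finset

variable {F : Type u} [Field F]

/-! ### the letters outside of `L` do not matter -/

theorem wd_congr {L : Finset ℕ} {a : VF F} (h : Wd L a) (A : CPA F) {x y : ℕ → A.E}
    (hxy : ∀ i ∈ L, x i = y i) : a A x = a A y := by
  induction h with
  | of i => exact hxy i (Finset.mem_singleton_self i)
  | @mul L M a b _ _ _ iha ihb =>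
    have h1 := iha (fun i hi => hxy i (Finset.mem_union_left _ hi))
    have h2 := ihb (fun i hi => hxy i (Finset.mem_union_right _ hi))
    show A.mul (a A x) (b A x) = A.mul (a A y) (b A y)
    rw [h1, h2]

theorem mo_congr {L : Finset ℕ} {f : SF F} (h : Mo L f) (A : CPA F) {x y : ℕ → A.E}
    (hxy : ∀ i ∈ L, x i = y i) : f A x = f A y := by
  induction h with
  | one => rfl
  | @mul L M N a b f ha hb _ _ _ ih =>
    have h1 := wd_congr ha A (fun i hi => hxy i (Finset.mem_union_left _ (Finset.mem_union_left _ hi)))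
    have h2 := wd_congr hb A (fun i hi => hxy i (Finset.mem_union_left _ (Finset.mem_union_right _ hi)))
    have h3 := ih (fun i hi => hxy i (Finset.mem_union_right _ hi))
    show A.s (a A x) (b A x) * f A x = A.s (a A y) (b A y) * f A y
    rw [h1, h2, h3]

theorem D_congr {L : Finset ℕ} {f : SF F} (h : f ∈ D F L) (A : CPA F) {x y : ℕ → A.E}
    (hxy : ∀ i ∈ L, x i = y i) : f A x = f A y := by
  refine D_ind (p := fun f => f A x = f A y) ?_ ?_ rfl (fun f hf => mo_congr hf A hxy) h
  · intro a b ha hb
    show a A x + b A x = a A y + b A y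
    rw [ha, hb]
  · intro r a ha
    show r • a A x = r • a A y
    rw [ha]

theorem E_congr {L : Finset ℕ} {a : VF F} (h : a ∈ E F L) (A : CPA F) {x y : ℕ → A.E}
    (hxy : ∀ i ∈ L, x i = y i) : a A x = a A y := by
  refine E_ind (p := fun f => f A x = f A y) rfl ?_ ?_ ?_ h
  · intro a b ha hb
    show a A x + b A x = a A y + b A y
    rw [ha, hb]
  · intro a ha
    show - a A x = - a A y
    rw [ha]
  · intro N M f a hf ha _ hL
    subst hL
    show f A x • a A x = f A y • a A y
    rw [D_congr hf A (fun i hi => hxy i (Finset.mem_union_left _ hi)),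
      wd_congr ha A (fun i hi => hxy i (Finset.mem_union_right _ hi))]

theorem indep {L : Finset ℕ} {f : SF F} (h : f ∈ D F L) (A : CPA F) (x : ℕ → A.E) {i : ℕ}
    (hi : i ∉ L) (v : A.E) : f A (Function.update x i v) = f A x :=
  D_congr h A (fun j hj => Function.update_of_ne (fun e : j = i => hi (e ▸ hj)) _ _)

theorem indepE {L : Finset ℕ} {f : VF F} (h : f ∈ E F L) (A : CPA F) (x : ℕ → A.E) {i : ℕ}
    (hi : i ∉ L) (v : A.E) : f A (Function.update x i v) = f A x :=
  E_congr h A (fun j hj => Function.update_of_ne (fun e : j = i => hi (e ▸ hj)) _ _)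

/-! ### multilinearity -/

theorem wd_lin {L : Finset ℕ} {a : VF F} (h : Wd L a) (A : CPA F) (x : ℕ → A.E) {i : ℕ}
    (hi : i ∈ L) (r : A.S) (v w : A.E) : a A (Function.update x i (r • v + w)) =
      r • a A (Function.update x i v) + a A (Function.update x i w) := by
  induction h with
  | of j =>
    rw [Finset.mem_singleton] at hi
    subst hi
    show Function.update x i (r • v + w) i = r • Function.update x i v i + Function.update x i w i
    rw [Function.update_self, Function.update_self, Function.update_self]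
  | @mul L M a b ha hb hd iha ihb =>
    show A.mul (a A _) (b A _) = r • A.mul (a A _) (b A _) + A.mul (a A _) (b A _)
    rw [Finset.mem_union] at hi
    rcases hi with hi | hi
    · have hi2 : i ∉ M := Finset.disjoint_left.1 hd hi
      have hc : ∀ v, b A (Function.update x i v) = b A x := fun v => indepE (E_of hb) A x hi2 v
      rw [iha hi, hc, hc, hc, map_add, map_smul, LinearMap.add_apply, LinearMap.smul_apply]
    · have hi2 : i ∉ L := fun h => Finset.disjoint_left.1 hd h hi
      have hc : ∀ v, a A (Function.update x i v) = a A x := fun v => indepE (E_of ha) A x hi2 v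
      rw [ihb hi, hc, hc, hc, map_add, map_smul]

theorem mo_lin {L : Finset ℕ} {f : SF F} (h : Mo L f) (A : CPA F) (x : ℕ → A.E) {i : ℕ}
    (hi : i ∈ L) (r : A.S) (v w : A.E) : f A (Function.update x i (r • v + w)) =
      r * f A (Function.update x i v) + f A (Function.update x i w) := by
  induction h with
  | one => exact absurd hi (Finset.notMem_empty i)
  | @mul L M N a b f ha hb hf h1 h2 ih =>
    show A.s (a A _) (b A _) * f A _ = r * (A.s (a A _) (b A _) * f A _) + A.s (a A _) (b A _) * f A _
    rw [Finset.mem_union, Finset.mem_union] at hi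
    rcases hi with (hi | hi) | hi
    · have hi2 : i ∉ M := Finset.disjoint_left.1 h1 hi
      have hi3 : i ∉ N := Finset.disjoint_left.1 h2 (Finset.mem_union_left _ hi)
      have hc : ∀ v, b A (Function.update x i v) = b A x := fun v => indepE (E_of hb) A x hi2 v
      have hg : ∀ v, f A (Function.update x i v) = f A x := fun v => indep (D_of hf) A x hi3 v
      rw [wd_lin ha A x hi, hc, hc, hc, hg, hg, hg, map_add, map_smul, LinearMap.add_apply,
        LinearMap.smul_apply, smul_eq_mul]
      ring
    · have hi2 : i ∉ L := fun h => Finset.disjoint_left.1 h1 h hi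
      have hi3 : i ∉ N := Finset.disjoint_left.1 h2 (Finset.mem_union_right _ hi)
      have hc : ∀ v, a A (Function.update x i v) = a A x := fun v => indepE (E_of ha) A x hi2 v
      have hg : ∀ v, f A (Function.update x i v) = f A x := fun v => indep (D_of hf) A x hi3 v
      rw [wd_lin hb A x hi, hc, hc, hc, hg, hg, hg, map_add, map_smul, smul_eq_mul]
      ring
    · have hi2 : i ∉ L := fun h => Finset.disjoint_left.1 h2 (Finset.mem_union_left _ h) hi
      have hi3 : i ∉ M := fun h => Finset.disjoint_left.1 h2 (Finset.mem_union_right _ h) hi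
      have hc : ∀ v, a A (Function.update x i v) = a A x := fun v => indepE (E_of ha) A x hi2 v
      have hg : ∀ v, b A (Function.update x i v) = b A x := fun v => indepE (E_of hb) A x hi3 v
      rw [ih hi, hc, hc, hc, hg, hg, hg]
      ring

theorem D_lin {L : Finset ℕ} {f : SF F} (h : f ∈ D F L) (A : CPA F) (x : ℕ → A.E) {i : ℕ}
    (hi : i ∈ L) (r : A.S) (v w : A.E) : f A (Function.update x i (r • v + w)) =
      r * f A (Function.update x i v) + f A (Function.update x i w) := by
  refine D_ind (p := fun f => f A (Function.update x i (r • v + w)) =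
      r * f A (Function.update x i v) + f A (Function.update x i w)) ?_ ?_ ?_ ?_ h
  · intro a b ha hb
    show a A _ + b A _ = r * (a A _ + b A _) + (a A _ + b A _)
    rw [ha, hb]
    ring
  · intro c a ha
    show c • a A _ = r * (c • a A _) + c • a A _
    rw [ha, smul_add, mul_smul_comm]
  · show (0 : A.S) = r * 0 + 0
    rw [mul_zero, add_zero]
  · exact fun f hf => mo_lin hf A x hi r v w

theorem E_lin {L : Finset ℕ} {f : VF F} (h : f ∈ E F L) (A : CPA F) (x : ℕ → A.E) {i : ℕ}
    (hi : i ∈ L) (r : A.S) (v w : A.E) : f A (Function.update x i (r • v + w)) =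
      r • f A (Function.update x i v) + f A (Function.update x i w) := by
  refine E_ind (p := fun f => f A (Function.update x i (r • v + w)) =
      r • f A (Function.update x i v) + f A (Function.update x i w)) ?_ ?_ ?_ ?_ h
  · show (0 : A.E) = r • (0 : A.E) + 0
    rw [smul_zero, add_zero]
  · intro a b ha hb
    show a A _ + b A _ = r • (a A _ + b A _) + (a A _ + b A _)
    rw [ha, hb, smul_add]
    abel
  · intro a ha
    show - a A _ = r • (- a A _) + - a A _
    rw [ha, smul_neg, neg_add]
  · intro N M f a hf ha hd hL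
    subst hL
    show f A _ • a A _ = r • (f A _ • a A _) + f A _ • a A _
    rw [Finset.mem_union] at hi
    rcases hi with hi | hi
    · have hi2 : i ∉ M := Finset.disjoint_left.1 hd hi
      have hc : ∀ v, a A (Function.update x i v) = a A x := fun v => indepE (E_of ha) A x hi2 v
      rw [D_lin hf A x hi, hc, hc, hc, add_smul, mul_smul]
    · have hi2 : i ∉ N := fun h => Finset.disjoint_left.1 hd h hi
      have hc : ∀ v, f A (Function.update x i v) = f A x := fun v => indep hf A x hi2 v
      rw [wd_lin ha A x hi, hc, hc, hc, smul_add, smul_comm]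

theorem D_add {L : Finset ℕ} {f : SF F} (h : f ∈ D F L) (A : CPA F) (x : ℕ → A.E) {i : ℕ}
    (hi : i ∈ L) (v w : A.E) : f A (Function.update x i (v + w)) =
      f A (Function.update x i v) + f A (Function.update x i w) := by
  have h1 := D_lin h A x hi 1 v w
  rwa [one_smul, one_mul] at h1

theorem D_zero {L : Finset ℕ} {f : SF F} (h : f ∈ D F L) (A : CPA F) (x : ℕ → A.E) {i : ℕ}
    (hi : i ∈ L) : f A (Function.update x i 0) = 0 := by
  have h1 := D_add h A x hi 0 0
  rw [add_zero] at h1
  exact left_eq_add.1 h1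

theorem D_smul {L : Finset ℕ} {f : SF F} (h : f ∈ D F L) (A : CPA F) (x : ℕ → A.E) {i : ℕ}
    (hi : i ∈ L) (r : A.S) (v : A.E) : f A (Function.update x i (r • v)) =
      r * f A (Function.update x i v) := by
  have h1 := D_lin h A x hi r v 0
  rwa [add_zero, D_zero h A x hi, add_zero] at h1

theorem D_neg {L : Finset ℕ} {f : SF F} (h : f ∈ D F L) (A : CPA F) (x : ℕ → A.E) {i : ℕ}
    (hi : i ∈ L) (v : A.E) : f A (Function.update x i (-v)) = - f A (Function.update x i v) := by
  have h1 := D_smul h A x hi (-1) v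
  rwa [neg_smul, one_smul, neg_mul, one_mul] at h1

/-! ### naturality -/

theorem wd_nat {L : Finset ℕ} {a : VF F} (h : Wd L a) {A B : CPA F} (g : Hom A B) (x : ℕ → A.E) :
    g.ψ (a A x) = a B (fun i => g.ψ (x i)) := by
  induction h with
  | of i => rfl
  | @mul L M a b _ _ _ iha ihb =>
    show g.ψ (A.mul (a A x) (b A x)) = B.mul (a B _) (b B _)
    rw [g.map_mul, iha, ihb]

theorem mo_nat {L : Finset ℕ} {f : SF F} (h : Mo L f) {A B : CPA F} (g : Hom A B) (x : ℕ → A.E) :
    g.φ (f A x) = f B (fun i => g.ψ (x i)) := by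
  induction h with
  | one => exact map_one g.φ
  | @mul L M N a b f ha hb _ _ _ ih =>
    show g.φ (A.s (a A x) (b A x) * f A x) = B.s (a B _) (b B _) * f B _
    rw [map_mul, g.map_s, ih, wd_nat ha, wd_nat hb]

theorem D_nat {L : Finset ℕ} {f : SF F} (h : f ∈ D F L) {A B : CPA F} (g : Hom A B) (x : ℕ → A.E) :
    g.φ (f A x) = f B (fun i => g.ψ (x i)) := by
  refine D_ind (p := fun f => g.φ (f A x) = f B (fun i => g.ψ (x i))) ?_ ?_ (map_zero _)
    (fun f hf => mo_nat hf g x) h
  · intro a b ha hb
    show g.φ (a A x + b A x) = a B _ + b B _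
    rw [map_add, ha, hb]
  · intro r a ha
    show g.φ (r • a A x) = r • a B _
    rw [map_smul, ha]

/-! ### substitution -/

theorem sb_add (i : ℕ) (W : VF F) (f g : SF F) : sb i W (f + g) = sb i W f + sb i W g := rfl

theorem sb_sub (i : ℕ) (W : VF F) (f g : SF F) : sb i W (f - g) = sb i W f - sb i W g := rfl

theorem sb_smul (i : ℕ) (W : VF F) (r : F) (f : SF F) : sb i W (r • f) = r • sb i W f := rfl

theorem sb_mul (i : ℕ) (W : VF F) (f g : SF F) : sb i W (f * g) = sb i W f * sb i W g := rfl

theorem sb_zero (i : ℕ) (W : VF F) : sb i W 0 = 0 := rfl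

theorem sb_sV (i : ℕ) (W a b : VF F) : sb i W (sV a b) = sV (sbV i W a) (sbV i W b) := rfl

theorem sbV_mV (i : ℕ) (W a b : VF F) : sbV i W (mV a b) = mV (sbV i W a) (sbV i W b) := rfl

theorem sbV_cV (i : ℕ) (W : VF F) (f : SF F) (b : VF F) :
    sbV i W (cV f b) = cV (sb i W f) (sbV i W b) := rfl

theorem sbV_xx_self (i : ℕ) (W : VF F) : sbV i W (xx i) = W := by
  funext A x
  exact Function.update_self _ _ _

theorem sbV_xx_ne {i j : ℕ} (h : j ≠ i) (W : VF F) : sbV i W (xx j) = xx j := by
  funext A x
  exact Function.update_of_ne h _ _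

theorem sb_indep {L : Finset ℕ} {f : SF F} (h : f ∈ D F L) {i : ℕ} (hi : i ∉ L) (W : VF F) :
    sb i W f = f := by
  funext A x
  exact indep h A x hi _

theorem sbV_indep {L : Finset ℕ} {f : VF F} (h : f ∈ E F L) {i : ℕ} (hi : i ∉ L) (W : VF F) :
    sbV i W f = f := by
  funext A x
  exact indepE h A x hi _

theorem sbV_wd_mem {L M : Finset ℕ} {i : ℕ} {W a : VF F} (ha : Wd L a) (hi : i ∈ L)
    (hW : W ∈ E F M) (hd : Disjoint (L.erase i) M) : sbV i W a ∈ E F (L.erase i ∪ M) := by
  induction ha with
  | of j =>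
    rw [Finset.mem_singleton] at hi
    subst hi
    rw [sbV_xx_self]
    refine E_cast hW ?_
    rw [Finset.erase_singleton, Finset.empty_union]
  | @mul L1 L2 a b ha hb h1 iha ihb =>
    rw [sbV_mV]
    rw [Finset.disjoint_left] at hd
    rw [Finset.mem_union] at hi
    rcases hi with hi | hi
    · have hi2 : i ∉ L2 := Finset.disjoint_left.1 h1 hi
      rw [sbV_indep (E_of hb) hi2]
      have h3 : Disjoint (L1.erase i) M := by
        rw [Finset.disjoint_left]
        intro n hn
        exact hd (Finset.erase_subset_erase _ Finset.subset_union_left hn)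
      have h4 : Disjoint (L1.erase i ∪ M) L2 := by
        rw [Finset.disjoint_left]
        intro n hn hn2
        rw [Finset.mem_union] at hn
        rcases hn with hn | hn
        · exact Finset.disjoint_left.1 h1 (Finset.mem_of_mem_erase hn) hn2
        · exact hd (Finset.mem_erase.2 ⟨fun e => hi2 (e ▸ hn2), Finset.mem_union_right _ hn2⟩) hn
      refine E_cast (E_m (iha hi h3) (E_of hb) h4) ?_
      rw [Finset.erase_union_distrib, Finset.erase_eq_of_notMem hi2, Finset.union_assoc,
        Finset.union_assoc, Finset.union_comm M]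
    · have hi2 : i ∉ L1 := fun h => Finset.disjoint_left.1 h1 h hi
      rw [sbV_indep (E_of ha) hi2]
      have h3 : Disjoint (L2.erase i) M := by
        rw [Finset.disjoint_left]
        intro n hn
        exact hd (Finset.erase_subset_erase _ Finset.subset_union_right hn)
      have h4 : Disjoint L1 (L2.erase i ∪ M) := by
        rw [Finset.disjoint_right]
        intro n hn hn2
        rw [Finset.mem_union] at hn
        rcases hn with hn | hn
        · exact Finset.disjoint_left.1 h1 hn2 (Finset.mem_of_mem_erase hn)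
        · exact hd (Finset.mem_erase.2 ⟨fun e => hi2 (e ▸ hn2), Finset.mem_union_left _ hn2⟩) hn
      refine E_cast (E_m (E_of ha) (ihb hi h3) h4) ?_
      rw [Finset.erase_union_distrib, Finset.erase_eq_of_notMem hi2, Finset.union_assoc]

theorem sb_mo_mem {L M : Finset ℕ} {i : ℕ} {W : VF F} {f : SF F} (hf : Mo L f) (hi : i ∈ L)
    (hW : W ∈ E F M) (hd : Disjoint (L.erase i) M) : sb i W f ∈ D F (L.erase i ∪ M) := by
  induction hf with
  | one => exact absurd hi (Finset.notMem_empty i)
  | @mul L1 L2 N a b f ha hb hf h1 h2 ih =>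
    rw [sb_mul, sb_sV]
    rw [Finset.disjoint_left] at hd
    rw [Finset.disjoint_union_left] at h2
    rw [Finset.mem_union, Finset.mem_union] at hi
    rcases hi with (hi | hi) | hi
    · have hi2 : i ∉ L2 := Finset.disjoint_left.1 h1 hi
      have hi3 : i ∉ N := Finset.disjoint_left.1 h2.1 hi
      rw [sbV_indep (E_of hb) hi2, sb_indep (D_of hf) hi3]
      have h3 : Disjoint (L1.erase i) M := by
        rw [Finset.disjoint_left]
        intro n hn
        exact hd (Finset.erase_subset_erase _ (Finset.subset_union_left.trans Finset.subset_union_left) hn)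
      have h4 : Disjoint (L1.erase i ∪ M) L2 := by
        rw [Finset.disjoint_left]
        intro n hn hn2
        rw [Finset.mem_union] at hn
        rcases hn with hn | hn
        · exact Finset.disjoint_left.1 h1 (Finset.mem_of_mem_erase hn) hn2
        · exact hd (Finset.mem_erase.2 ⟨fun e => hi2 (e ▸ hn2),
            Finset.mem_union_left _ (Finset.mem_union_right _ hn2)⟩) hn
      have h5 : Disjoint (L1.erase i ∪ M ∪ L2) N := by
        rw [Finset.disjoint_left]
        intro n hn hn2
        rw [Finset.mem_union, Finset.mem_union] at hn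
        rcases hn with (hn | hn) | hn
        · exact Finset.disjoint_left.1 h2.1 (Finset.mem_of_mem_erase hn) hn2
        · exact hd (Finset.mem_erase.2 ⟨fun e => hi3 (e ▸ hn2), Finset.mem_union_right _ hn2⟩) hn
        · exact Finset.disjoint_left.1 h2.2 hn hn2
      refine D_cast (D_mul (D_s (sbV_wd_mem ha hi hW h3) (E_of hb) h4) (D_of hf) h5) ?_
      rw [Finset.erase_union_distrib, Finset.erase_union_distrib, Finset.erase_eq_of_notMem hi2,
        Finset.erase_eq_of_notMem hi3, Finset.union_assoc, Finset.union_assoc, Finset.union_assoc,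
        Finset.union_assoc, Finset.union_comm M, Finset.union_assoc]
    · have hi2 : i ∉ L1 := fun h => Finset.disjoint_left.1 h1 h hi
      have hi3 : i ∉ N := Finset.disjoint_left.1 h2.2 hi
      rw [sbV_indep (E_of ha) hi2, sb_indep (D_of hf) hi3]
      have h3 : Disjoint (L2.erase i) M := by
        rw [Finset.disjoint_left]
        intro n hn
        exact hd (Finset.erase_subset_erase _ (Finset.subset_union_right.trans Finset.subset_union_left) hn)
      have h4 : Disjoint L1 (L2.erase i ∪ M) := by
        rw [Finset.disjoint_right]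
        intro n hn hn2
        rw [Finset.mem_union] at hn
        rcases hn with hn | hn
        · exact Finset.disjoint_left.1 h1 hn2 (Finset.mem_of_mem_erase hn)
        · exact hd (Finset.mem_erase.2 ⟨fun e => hi2 (e ▸ hn2),
            Finset.mem_union_left _ (Finset.mem_union_left _ hn2)⟩) hn
      have h5 : Disjoint (L1 ∪ (L2.erase i ∪ M)) N := by
        rw [Finset.disjoint_left]
        intro n hn hn2
        rw [Finset.mem_union, Finset.mem_union] at hn
        rcases hn with hn | hn | hn
        · exact Finset.disjoint_left.1 h2.1 hn hn2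
        · exact Finset.disjoint_left.1 h2.2 (Finset.mem_of_mem_erase hn) hn2
        · exact hd (Finset.mem_erase.2 ⟨fun e => hi3 (e ▸ hn2), Finset.mem_union_right _ hn2⟩) hn
      refine D_cast (D_mul (D_s (E_of ha) (sbV_wd_mem hb hi hW h3) h4) (D_of hf) h5) ?_
      rw [Finset.erase_union_distrib, Finset.erase_union_distrib, Finset.erase_eq_of_notMem hi2,
        Finset.erase_eq_of_notMem hi3, Finset.union_assoc, Finset.union_assoc, Finset.union_assoc,
        Finset.union_assoc, Finset.union_comm M]
    · have hi2 : i ∉ L1 := fun h => Finset.disjoint_left.1 h2.1 h hi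
      have hi3 : i ∉ L2 := fun h => Finset.disjoint_left.1 h2.2 h hi
      rw [sbV_indep (E_of ha) hi2, sbV_indep (E_of hb) hi3]
      have h3 : Disjoint (N.erase i) M := by
        rw [Finset.disjoint_left]
        intro n hn
        exact hd (Finset.erase_subset_erase _ Finset.subset_union_right hn)
      have h4 : Disjoint (L1 ∪ L2) (N.erase i ∪ M) := by
        rw [Finset.disjoint_right]
        intro n hn hn2
        rw [Finset.mem_union] at hn
        rcases hn with hn | hn
        · rw [Finset.mem_union] at hn2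
          rcases hn2 with hn2 | hn2
          · exact Finset.disjoint_left.1 h2.1 hn2 (Finset.mem_of_mem_erase hn)
          · exact Finset.disjoint_left.1 h2.2 hn2 (Finset.mem_of_mem_erase hn)
        · refine hd (Finset.mem_erase.2 ⟨fun e => ?_, Finset.mem_union_left _ hn2⟩) hn
          rw [Finset.mem_union] at hn2
          rcases hn2 with hn2 | hn2
          · exact hi2 (e ▸ hn2)
          · exact hi3 (e ▸ hn2)
      refine D_cast (D_mul (D_s (E_of ha) (E_of hb) h1) (ih hi h3) h4) ?_
      rw [Finset.erase_union_distrib, Finset.erase_union_distrib, Finset.erase_eq_of_notMem hi2,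
        Finset.erase_eq_of_notMem hi3, Finset.union_assoc, Finset.union_assoc, Finset.union_assoc]

theorem sb_mem {L M : Finset ℕ} {i : ℕ} {W : VF F} {f : SF F} (hf : f ∈ D F L) (hi : i ∈ L)
    (hW : W ∈ E F M) (hd : Disjoint (L.erase i) M) : sb i W f ∈ D F (L.erase i ∪ M) := by
  refine D_ind (p := fun f => sb i W f ∈ D F (L.erase i ∪ M)) ?_ ?_ ?_ ?_ hf
  · intro a b ha hb
    exact Submodule.add_mem _ ha hb
  · intro r a ha
    exact Submodule.smul_mem _ r ha
  · exact Submodule.zero_mem _
  · exact fun f hf => sb_mo_mem hf hi hW hd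

theorem sb_add_W {L : Finset ℕ} {f : SF F} (h : f ∈ D F L) {i : ℕ} (hi : i ∈ L) (V W : VF F) :
    sb i (V + W) f = sb i V f + sb i W f := by
  funext A x
  exact D_add h A x hi _ _

theorem sb_neg_W {L : Finset ℕ} {f : SF F} (h : f ∈ D F L) {i : ℕ} (hi : i ∈ L) (W : VF F) :
    sb i (-W) f = - sb i W f := by
  funext A x
  exact D_neg h A x hi _

theorem sb_sub_W {L : Finset ℕ} {f : SF F} (h : f ∈ D F L) {i : ℕ} (hi : i ∈ L) (V W : VF F) :
    sb i (V - W) f = sb i V f - sb i W f := by
  rw [sub_eq_add_neg, sb_add_W h hi, sb_neg_W h hi, sub_eq_add_neg]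

theorem sb_cV {L : Finset ℕ} {f : SF F} (h : f ∈ D F L) {i : ℕ} (hi : i ∈ L) (g : SF F) (W : VF F) :
    sb i (cV g W) f = g * sb i W f := by
  funext A x
  exact D_smul h A x hi _ _

theorem sb_zero_W {L : Finset ℕ} {f : SF F} (h : f ∈ D F L) {i : ℕ} (hi : i ∈ L) :
    sb i (0 : VF F) f = 0 := by
  funext A x
  exact D_zero h A x hi

theorem sb_xx (i : ℕ) (f : SF F) : sb i (xx i) f = f := by
  funext A x
  show f A (Function.update x i (x i)) = f A x
  rw [Function.update_eq_self]

/-! ### renaming -/

theorem renV_wd {L : Finset ℕ} {a : VF F} (h : Wd L a) {σ : ℕ → ℕ} (hσ : Function.Injective σ) :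
    Wd (L.image σ) (renV σ a) := by
  induction h with
  | of i =>
    rw [Finset.image_singleton]
    exact Wd.of (σ i)
  | @mul L M a b ha hb hd iha ihb =>
    rw [Finset.image_union]
    exact Wd.mul iha ihb ((Finset.disjoint_image hσ).2 hd)

theorem ren_mo {L : Finset ℕ} {f : SF F} (h : Mo L f) {σ : ℕ → ℕ} (hσ : Function.Injective σ) :
    Mo (L.image σ) (ren σ f) := by
  induction h with
  | one =>
    rw [Finset.image_empty]
    exact Mo.one
  | @mul L M N a b f ha hb hf h1 h2 ih =>
    rw [Finset.image_union, Finset.image_union]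
    refine Mo.mul (renV_wd ha hσ) (renV_wd hb hσ) ih ((Finset.disjoint_image hσ).2 h1) ?_
    rw [← Finset.image_union]
    exact (Finset.disjoint_image hσ).2 h2

theorem ren_mem {L : Finset ℕ} {f : SF F} (h : f ∈ D F L) {σ : ℕ → ℕ} (hσ : Function.Injective σ) :
    ren σ f ∈ D F (L.image σ) := by
  refine D_ind (p := fun f => ren σ f ∈ D F (L.image σ)) ?_ ?_ ?_ ?_ h
  · intro a b ha hb
    exact Submodule.add_mem _ ha hb
  · intro r a ha
    exact Submodule.smul_mem _ r ha
  · exact Submodule.zero_mem _
  · exact fun f hf => D_of (ren_mo hf hσ)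

/-- the exchange of two letters -/
abbrev rr (i j : ℕ) (f : SF F) : SF F := ren (Equiv.swap i j) f

theorem rr_mem' {L : Finset ℕ} {f : SF F} (h : f ∈ D F L) (i j : ℕ) :
    rr i j f ∈ D F (L.image (Equiv.swap i j)) := ren_mem h (Equiv.swap i j).injective

theorem image_swap {L : Finset ℕ} {i j : ℕ} (hi : i ∈ L) (hj : j ∈ L) :
    L.image (Equiv.swap i j) = L := by
  apply Finset.eq_of_subset_of_card_le
  · intro n hn
    rw [Finset.mem_image] at hn
    obtain ⟨m, hm, rfl⟩ := hn
    rcases eq_or_ne m i with rfl | h1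
    · rwa [Equiv.swap_apply_left]
    · rcases eq_or_ne m j with rfl | h2
      · rwa [Equiv.swap_apply_right]
      · rwa [Equiv.swap_apply_of_ne_of_ne h1 h2]
  · rw [Finset.card_image_of_injective _ (Equiv.swap i j).injective]

theorem rr_mem {L : Finset ℕ} {f : SF F} (h : f ∈ D F L) {i j : ℕ} (hi : i ∈ L) (hj : j ∈ L) :
    rr i j f ∈ D F L := D_cast (rr_mem' h i j) (image_swap hi hj)

theorem image_swap_of_notMem {L : Finset ℕ} {i j : ℕ} (hi : i ∉ L) (hj : j ∉ L) :
    L.image (Equiv.swap i j) = L := by
  ext n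
  rw [Finset.mem_image]
  constructor
  · rintro ⟨m, hm, rfl⟩
    rwa [Equiv.swap_apply_of_ne_of_ne (fun e : m = i => hi (e ▸ hm)) (fun e : m = j => hj (e ▸ hm))]
  · intro hn
    exact ⟨n, hn, Equiv.swap_apply_of_ne_of_ne (fun e : n = i => hi (e ▸ hn))
      (fun e : n = j => hj (e ▸ hn))⟩

theorem image_swap_erase {L : Finset ℕ} {i j : ℕ} (hi : i ∈ L) (hj : j ∈ L) :
    (L.erase i).image (Equiv.swap i j) = L.erase j := by
  rw [Finset.image_erase (Equiv.swap i j).injective, image_swap hi hj, Equiv.swap_apply_left]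

theorem rr_erase {L : Finset ℕ} {f : SF F} {i j : ℕ} (h : f ∈ D F (L.erase i)) (hi : i ∈ L)
    (hj : j ∈ L) : rr i j f ∈ D F (L.erase j) := D_cast (rr_mem' h i j) (image_swap_erase hi hj)

theorem rr_of_notMem {L : Finset ℕ} {f : SF F} (h : f ∈ D F L) {i j : ℕ} (hi : i ∉ L) (hj : j ∉ L) :
    rr i j f = f := by
  funext A x
  refine D_congr h A ?_
  intro n hn
  show x (Equiv.swap i j n) = x n
  rw [Equiv.swap_apply_of_ne_of_ne (fun e : n = i => hi (e ▸ hn)) (fun e : n = j => hj (e ▸ hn))]

theorem rr_rr (i j : ℕ) (f : SF F) : rr i j (rr i j f) = f := by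
  funext A x
  show f A (fun n => x (Equiv.swap i j (Equiv.swap i j n))) = f A x
  congr 1
  funext n
  rw [Equiv.swap_apply_self]

theorem rr_comm (i j : ℕ) (f : SF F) : rr i j f = rr j i f := by
  unfold rr
  rw [Equiv.swap_comm]

theorem ren_mul (σ : ℕ → ℕ) (f g : SF F) : ren σ (f * g) = ren σ f * ren σ g := rfl

theorem ren_add (σ : ℕ → ℕ) (f g : SF F) : ren σ (f + g) = ren σ f + ren σ g := rfl

theorem ren_sub (σ : ℕ → ℕ) (f g : SF F) : ren σ (f - g) = ren σ f - ren σ g := rfl

theorem ren_neg (σ : ℕ → ℕ) (f : SF F) : ren σ (-f) = - ren σ f := rfl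

theorem ren_smul (σ : ℕ → ℕ) (r : F) (f : SF F) : ren σ (r • f) = r • ren σ f := rfl

theorem ren_sV (σ : ℕ → ℕ) (a b : VF F) : ren σ (sV a b) = sV (renV σ a) (renV σ b) := rfl

theorem renV_mV (σ : ℕ → ℕ) (a b : VF F) : renV σ (mV a b) = mV (renV σ a) (renV σ b) := rfl

theorem renV_xx (σ : ℕ → ℕ) (i : ℕ) : renV σ (xx i : VF F) = xx (σ i) := rfl

/-- renaming and substitution -/
theorem ren_sb (σ : Equiv.Perm ℕ) (i : ℕ) (W : VF F) (f : SF F) :
    ren σ (sb i W f) = sb (σ i) (renV σ W) (ren σ f) := by
  funext A x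
  show f A (Function.update (fun n => x (σ n)) i (W A fun n => x (σ n))) =
    f A (fun n => Function.update x (σ i) (W A fun n => x (σ n)) (σ n))
  congr 1
  funext n
  rcases eq_or_ne n i with rfl | h
  · rw [Function.update_self, Function.update_self]
  · rw [Function.update_of_ne h, Function.update_of_ne (fun e => h (σ.injective e))]

/-- substitutions for different letters -/
theorem sb_sb (i j : ℕ) (V W : VF F) (f : SF F) :
    sb i V (sb j W f) = fun A x => f A (Function.update (Function.update x i (V A x)) j (sbV i V W A x)) := rfl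

theorem sb_sb_comm {i j : ℕ} (hij : i ≠ j) {V W : VF F} {f : SF F} (hV : sbV j W V = V)
    (hW : sbV i V W = W) : sb i V (sb j W f) = sb j W (sb i V f) := by
  funext A x
  show f A (Function.update (Function.update x i (V A x)) j (sbV i V W A x)) =
    f A (Function.update (Function.update x j (W A x)) i (sbV j W V A x))
  rw [hV, hW, Function.update_comm hij]

/-- the substitution of the same letter twice -/
theorem sb_sb_self (i : ℕ) (V W : VF F) (f : SF F) : sb i V (sb i W f) = sb i (sbV i V W) f := by
  funext A x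
  show f A (Function.update (Function.update x i (V A x)) i (sbV i V W A x)) =
    f A (Function.update x i (sbV i V W A x))
  rw [Function.update_idem]

theorem sbV_mV_xx {i p q : ℕ} (hp : p ≠ i) (hq : q ≠ i) (W : VF F) :
    sbV i W (mV (xx p) (xx q)) = mV (xx p) (xx q) := by
  rw [sbV_mV, sbV_xx_ne hp, sbV_xx_ne hq]

end X

end Pool.Agent.Malc
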