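import Pool.Agent.Malc.MalE
import Pool.Agent.Malc.X.Sub

/-! # Theorem X: multilinear families for words in coloured letters

Every homogeneous element `p` of the free algebra gives a family `g` in `D L` and a colouring `col` of the letters such
that `g` at the coloured assignment is `s(p, y)`. -/

set_option autoImplicit false

namespace Pool.Agent.Malc

universe u

namespace X

open CPA Finset

namespace LiftAux

/-- splitting a multiset along a splitting of its image -/
theorem map_eq_add {α β : Type*} [DecidableEq α] (f : α → β) (t u : Multiset β) :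
    ∀ s : Multiset α, s.map f = t + u → ∃ s1 s2, s = s1 + s2 ∧ s1.map f = t ∧ s2.map f = u := by
  induction t using Multiset.induction_on with
  | empty =>
    intro s h
    exact ⟨0, s, by rw [zero_add], rfl, by rw [h, zero_add]⟩
  | cons b t ih =>
    intro s h
    rw [Multiset.cons_add, ← Multiset.map_eq_cons] at h
    obtain ⟨a, ha, hb, h1⟩ := h
    obtain ⟨s1, s2, h2, h3, h4⟩ := ih _ h1
    refine ⟨a ::ₘ s1, s2, ?_, ?_, h4⟩
    · rw [Multiset.cons_add, ← h2, Multiset.cons_erase ha]
    · rw [Multiset.map_cons, h3, hb]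

/-- splitting a finite set along a splitting of its image -/
theorem split {L : Finset ℕ} {col : ℕ → ℕ} {t u : Multiset ℕ} (h : L.val.map col = t + u) :
    ∃ L1 L2 : Finset ℕ, Disjoint L1 L2 ∧ L1 ∪ L2 = L ∧ L1.val.map col = t ∧ L2.val.map col = u := by
  obtain ⟨s1, s2, h1, h2, h3⟩ := map_eq_add col t u L.val h
  have hn : (s1 + s2).Nodup := h1 ▸ L.nodup
  rw [Multiset.nodup_add] at hn
  refine ⟨⟨s1, hn.1⟩, ⟨s2, hn.2.1⟩, ?_, ?_, h2, h3⟩
  · rw [← Finset.disjoint_val]
    exact hn.2.2
  · ext i
    rw [Finset.mem_union, ← Finset.mem_val, ← Finset.mem_val, ← Finset.mem_val, h1, Multiset.mem_add]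

end LiftAux

variable {F : Type u} [Field F]

/-- the values of the letters as elements of the Malcev algebra -/
def toMal (A : CPA F) (y : ℕ → A.E) : ℕ → A.Mal := fun c => ⟨y c⟩

/-- lifting words -/
theorem lift_word (col : ℕ → ℕ) (w : FreeMagma ℕ) : ∀ L : Finset ℕ, L.val.map col = content w →
    ∃ a : VF F, Wd L a ∧ ∀ (A : CPA F) (y : ℕ → A.E), a A (fun i => y (col i)) = (evw (toMal A y) w).e := by
  induction w with
  | ih1 c =>
    intro L h
    have h1 : L.val.map col = {c} := h
    rw [Multiset.map_eq_singleton] at h1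
    obtain ⟨i, hi, hc⟩ := h1
    have hL : L = {i} := Finset.val_injective hi
    subst hL
    refine ⟨xx i, Wd.of i, fun A y => ?_⟩
    show y (col i) = y c
    rw [hc]
  | ih2 v w ihv ihw =>
    intro L h
    have h1 : L.val.map col = content v + content w := h
    obtain ⟨L1, L2, hd, hL, h2, h3⟩ := LiftAux.split h1
    obtain ⟨a, ha, ha'⟩ := ihv L1 h2
    obtain ⟨b, hb, hb'⟩ := ihw L2 h3
    subst hL
    refine ⟨mV a b, Wd.mul ha hb hd, fun A y => ?_⟩
    show A.mul (a A (fun i => y (col i))) (b A (fun i => y (col i))) =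
      A.mul (evw (toMal A y) v).e (evw (toMal A y) w).e
    rw [ha', hb']

/-- lifting homogeneous elements -/
theorem lift_Hg {col : ℕ → ℕ} {L : Finset ℕ} {m : Multiset ℕ} (hm : L.val.map col = m) {p : FA F}
    (hp : p ∈ Hg F m) {N : ℕ} (hN : N ∉ L) :
    ∃ g ∈ D F (L ∪ {N}), ∀ (A : CPA F) (y : ℕ → A.E),
      g A (fun i => y (col i)) = A.s (ev (toMal A y) p).e (y (col N)) := by
  unfold Hg at hp
  induction hp using Submodule.span_induction with
  | mem p hp =>
    obtain ⟨w, hw, rfl⟩ := hp
    obtain ⟨a, ha, ha'⟩ := lift_word (F := F) col w L (by rw [hm, hw])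
    refine ⟨sV a (xx N), D_s_wd ha (Wd.of N) (Finset.disjoint_singleton_right.2 hN), fun A y => ?_⟩
    show A.s (a A (fun i => y (col i))) (y (col N)) = _
    rw [ha', ev_wd]
  | zero =>
    refine ⟨0, Submodule.zero_mem _, fun A y => ?_⟩
    rw [map_zero]
    exact (LinearMap.map_zero₂ _ _).symm
  | add p q _ _ h1 h2 =>
    obtain ⟨f, hf, hf'⟩ := h1
    obtain ⟨g, hg, hg'⟩ := h2
    refine ⟨f + g, Submodule.add_mem _ hf hg, fun A y => ?_⟩
    show f A (fun i => y (col i)) + g A (fun i => y (col i)) = _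
    rw [hf', hg', map_add]
    exact (LinearMap.map_add₂ _ _ _ _).symm
  | smul r p _ h1 =>
    obtain ⟨f, hf, hf'⟩ := h1
    refine ⟨r • f, Submodule.smul_mem _ _ hf, fun A y => ?_⟩
    show r • f A (fun i => y (col i)) = _
    rw [hf', map_smul, CPA.Mal.smul_e, map_smul, LinearMap.smul_apply, smul_eq_mul, Algebra.smul_def]

/-- colourings -/
theorem exists_col (m : Multiset ℕ) (c : ℕ) : ∃ (L : Finset ℕ) (N : ℕ) (col : ℕ → ℕ), N ∉ L ∧
    L.val.map col = m ∧ col N = c := by
  induction m using Quotient.inductionOn with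
  | h l =>
    refine ⟨Finset.range l.length, l.length, fun i => (l ++ [c]).getD i 0, by simp, ?_, by simp⟩
    show Multiset.map _ (Multiset.range l.length) = (l : Multiset ℕ)
    rw [← Multiset.coe_range, Multiset.map_coe]
    congr 1
    apply List.ext_getElem
    · simp
    · intro i h1 h2
      simp [List.getD_eq_getElem?_getD, List.getElem?_append_left h2, List.getElem?_eq_getElem h2]

end X

end Pool.Agent.Malc
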