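import Pool.Agent.Malc.X.Clo

/-! # Theorem X: separation of one and of two letters -/

set_option autoImplicit false

namespace Pool.Agent.Malc

universe u

namespace X

open CPA Finset

variable {F : Type u} [Field F]

variable (F) in
/-- the separated form of the vector families in which the letter `y` occurs: `l y + e y + s(c, y) b` -/
def Op (L : Finset ℕ) (y : ℕ) : AddSubgroup (VF F) :=
  AddSubgroup.closure ({v | ∃ l ∈ D F L, v = cV l (xx y)} ∪ {v | ∃ e ∈ E F L, v = mV e (xx y)} ∪
    {v | ∃ M N b c, b ∈ E F M ∧ c ∈ E F N ∧ Disjoint M N ∧ M ∪ N = L ∧ v = cV (sV c (xx y)) b})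

theorem Op_l {L : Finset ℕ} {y : ℕ} {l : SF F} (h : l ∈ D F L) : cV l (xx y) ∈ Op F L y :=
  AddSubgroup.subset_closure (Or.inl (Or.inl ⟨l, h, rfl⟩))

theorem Op_e {L : Finset ℕ} {y : ℕ} {e : VF F} (h : e ∈ E F L) : mV e (xx y) ∈ Op F L y :=
  AddSubgroup.subset_closure (Or.inl (Or.inr ⟨e, h, rfl⟩))

theorem Op_s {L M N : Finset ℕ} {y : ℕ} {b c : VF F} (hb : b ∈ E F M) (hc : c ∈ E F N)
    (hd : Disjoint M N) (hL : M ∪ N = L) : cV (sV c (xx y)) b ∈ Op F L y :=
  AddSubgroup.subset_closure (Or.inr ⟨M, N, b, c, hb, hc, hd, hL, rfl⟩)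

theorem Op_cast {L M : Finset ℕ} {y : ℕ} {v : VF F} (h : v ∈ Op F L y) (e : L = M) :
    v ∈ Op F M y := e ▸ h

/-- induction for `Op` -/
theorem Op_ind {L : Finset ℕ} {y : ℕ} {p : VF F → Prop} (h0 : p 0)
    (hadd : ∀ a b, p a → p b → p (a + b)) (hneg : ∀ a, p a → p (-a))
    (hl : ∀ l ∈ D F L, p (cV l (xx y))) (he : ∀ e ∈ E F L, p (mV e (xx y)))
    (hs : ∀ M N b c, b ∈ E F M → c ∈ E F N → Disjoint M N → M ∪ N = L →
      p (cV (sV c (xx y)) b)) {v : VF F} (hv : v ∈ Op F L y) : p v := by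
  unfold Op at hv
  induction hv using AddSubgroup.closure_induction with
  | mem x hx =>
    rcases hx with (⟨l, hl', rfl⟩ | ⟨e, he', rfl⟩) | ⟨M, N, b, c, hb, hc, hd, hL, rfl⟩
    · exact hl l hl'
    · exact he e he'
    · exact hs M N b c hb hc hd hL
  | zero => exact h0
  | add x y _ _ hx hy => exact hadd x y hx hy
  | neg x _ hx => exact hneg x hx

theorem two_mem : (2 : SF F) ∈ D F ∅ := by
  have h := Submodule.add_mem _ (one_mem (F := F)) (one_mem (F := F))
  rwa [one_add_one_eq_two] at h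

theorem smul_one_mem (r : F) : (r • (1 : SF F)) ∈ D F ∅ := Submodule.smul_mem _ r one_mem

/-- `E L` is closed under the scalars `F` -/
theorem E_smul {L : Finset ℕ} {a : VF F} (r : F) (ha : a ∈ E F L) : cV (r • 1) a ∈ E F L :=
  E_cast (E_c (smul_one_mem r) ha (Finset.disjoint_empty_left _)) (Finset.empty_union _)

/-- multiplication by a scalar family -/
theorem Op_c {K L : Finset ℕ} {y : ℕ} {f : SF F} {v : VF F} (hf : f ∈ D F K) (hv : v ∈ Op F L y)
    (h : Disjoint K L) : cV f v ∈ Op F (K ∪ L) y := by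
  refine Op_ind (p := fun v => cV f v ∈ Op F (K ∪ L) y) ?_ ?_ ?_ ?_ ?_ ?_ hv
  · rw [cV_zero_right]; exact AddSubgroup.zero_mem _
  · intro a b ha hb; rw [cV_add_right]; exact AddSubgroup.add_mem _ ha hb
  · intro a ha; rw [cV_neg_right]; exact AddSubgroup.neg_mem _ ha
  · intro l hl
    rw [cV_cV]
    exact Op_l (D_mul hf hl h)
  · intro e he
    rw [← mV_cV_left]
    exact Op_e (E_c hf he h)
  · intro M N b c hb hc hd hL
    subst hL
    rw [Finset.disjoint_union_right] at h
    rw [cV_cV, mul_comm, ← cV_cV]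
    refine Op_s (E_c hf hb h.1) hc ?_ (by rw [Finset.union_assoc])
    rw [Finset.disjoint_union_left]
    exact ⟨h.2, hd⟩

/-- multiplication by a vector family -/
theorem Op_m {K L : Finset ℕ} {y : ℕ} {a v : VF F} (ha : a ∈ E F K) (hv : v ∈ Op F L y)
    (h : Disjoint K L) : mV a v ∈ Op F (K ∪ L) y := by
  refine Op_ind (p := fun v => mV a v ∈ Op F (K ∪ L) y) ?_ ?_ ?_ ?_ ?_ ?_ hv
  · rw [mV_zero_right]; exact AddSubgroup.zero_mem _
  · intro a b ha hb; rw [mV_add_right]; exact AddSubgroup.add_mem _ ha hb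
  · intro a ha; rw [mV_neg_right]; exact AddSubgroup.neg_mem _ ha
  · intro l hl
    rw [mV_cV_right, ← mV_cV_left]
    exact Op_e (E_cast (E_c hl ha h.symm) (Finset.union_comm _ _))
  · intro e he
    have h1 : mV a (mV e (xx y)) = - mV (mV a e) (xx y) + cV (sV a (xx y)) (cV 2 e) -
        cV (sV a e) (xx y) - cV (sV e (xx y)) a := by
      rw [mV_mV a e (xx y), cV_cV, mul_comm (sV a (xx y)) 2]
      abel
    rw [h1]
    refine AddSubgroup.sub_mem _ (AddSubgroup.sub_mem _ (AddSubgroup.add_mem _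
      (AddSubgroup.neg_mem _ (Op_e (E_m ha he h))) ?_) (Op_l (D_s ha he h))) ?_
    · refine Op_s (E_cast (E_c two_mem he (Finset.disjoint_empty_left _)) (Finset.empty_union _)) ha
        h.symm (Finset.union_comm _ _)
    · exact Op_s ha he h rfl
  · intro M N b c hb hc hd hL
    subst hL
    rw [Finset.disjoint_union_right] at h
    rw [mV_cV_right]
    refine Op_s (E_m ha hb h.1) hc ?_ (by rw [Finset.union_assoc])
    rw [Finset.disjoint_union_left]
    exact ⟨h.2, hd⟩

/-- words are separated -/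
theorem sepW {M : Finset ℕ} {w : VF F} (hw : Wd M w) {y : ℕ} (hy : y ∈ M) :
    w ∈ Op F (M.erase y) y := by
  induction hw with
  | of i =>
    rw [Finset.mem_singleton] at hy
    subst hy
    have h1 := Op_l (y := y) (one_mem (F := F))
    rw [cV_one] at h1
    exact Op_cast h1 (by simp)
  | @mul L M a b ha hb hd iha ihb =>
    rcases Finset.mem_union.1 hy with h | h
    · have h1 : y ∉ M := fun h2 => (Finset.disjoint_left.1 hd) h h2
      have h2 := Op_m (E_of hb) (iha h) (hd.symm.mono_right (Finset.erase_subset _ _))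
      rw [mV_anti]
      refine AddSubgroup.neg_mem _ (Op_cast h2 ?_)
      rw [Finset.erase_union_distrib, Finset.erase_eq_of_notMem h1, Finset.union_comm]
    · have h1 : y ∉ L := fun h2 => (Finset.disjoint_left.1 hd) h2 h
      have h2 := Op_m (E_of ha) (ihb h) (hd.mono_right (Finset.erase_subset _ _))
      refine Op_cast h2 ?_
      rw [Finset.erase_union_distrib, Finset.erase_eq_of_notMem h1]

/-- the scalar families which are forms with the letter `y` are closed under sums -/
theorem sep_op {K L : Finset ℕ} {y : ℕ} {a v : VF F} (ha : a ∈ E F K) (hv : v ∈ Op F L y)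
    (h : Disjoint K L) : ∃ e ∈ E F (K ∪ L), sV a v = sV e (xx y) := by
  refine Op_ind (p := fun v => ∃ e ∈ E F (K ∪ L), sV a v = sV e (xx y)) ?_ ?_ ?_ ?_ ?_ ?_ hv
  · exact ⟨0, AddSubgroup.zero_mem _, by rw [sV_zero_right, sV_zero_left]⟩
  · rintro a' b' ⟨e, he, h1⟩ ⟨e', he', h2⟩
    exact ⟨e + e', AddSubgroup.add_mem _ he he', by rw [sV_add_right, h1, h2, sV_add_left]⟩
  · rintro a' ⟨e, he, h1⟩
    exact ⟨-e, AddSubgroup.neg_mem _ he, by rw [sV_neg_right, h1, sV_neg_left]⟩
  · intro l hl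
    exact ⟨cV l a, E_cast (E_c hl ha h.symm) (Finset.union_comm _ _), by
      rw [sV_cV_right, sV_cV_left]⟩
  · intro e he
    exact ⟨mV a e, E_m ha he h, by rw [sV_assoc]⟩
  · intro M N b c hb hc hd hL
    subst hL
    rw [Finset.disjoint_union_right] at h
    refine ⟨cV (sV a b) c, E_cast (E_c (D_s ha hb h.1) hc ?_) (by rw [Finset.union_assoc]), ?_⟩
    · rw [Finset.disjoint_union_left]
      exact ⟨h.2, hd⟩
    · rw [sV_cV_right, sV_cV_left, mul_comm]

/-- **one letter is separated in a scalar family** -/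
theorem sep1 {L : Finset ℕ} {y : ℕ} {f : SF F} (hy : y ∈ L) (hf : f ∈ D F L) :
    ∃ e ∈ E F (L.erase y), f = sV e (xx y) := by
  refine D_ind (p := fun f => ∃ e ∈ E F (L.erase y), f = sV e (xx y)) ?_ ?_ ?_ ?_ hf
  · rintro a b ⟨e, he, h1⟩ ⟨e', he', h2⟩
    exact ⟨e + e', AddSubgroup.add_mem _ he he', by rw [h1, h2, sV_add_left]⟩
  · rintro r a ⟨e, he, h1⟩
    exact ⟨cV (r • 1) e, E_smul r he, by rw [h1, sV_cV_left, smul_mul_assoc, one_mul]⟩
  · exact ⟨0, AddSubgroup.zero_mem _, by rw [sV_zero_left]⟩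
  · intro f hf
    clear * - hf hy
    induction hf with
    | one => exact absurd hy (Finset.notMem_empty _)
    | @mul L M N a b f ha hb hf hd hd2 ih =>
      by_cases h : y ∈ N
      · obtain ⟨e, he, h1⟩ := ih h
        have h2 : y ∉ L ∪ M := fun h3 => (Finset.disjoint_left.1 hd2) h3 h
        refine ⟨cV (sV a b) e, E_cast (E_c (D_s_wd ha hb hd) he
          (hd2.mono_right (Finset.erase_subset _ _))) ?_, by rw [h1, sV_cV_left]⟩
        rw [Finset.erase_union_distrib, Finset.erase_eq_of_notMem h2]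
      · have h0 : y ∈ L ∪ M := by
          rcases Finset.mem_union.1 hy with h1 | h1
          · exact h1
          · exact absurd h1 h
        have h3 : ∃ e ∈ E F ((L ∪ M).erase y), sV a b = sV e (xx y) := by
          rcases Finset.mem_union.1 h0 with h1 | h1
          · have h4 : y ∉ M := fun h2 => (Finset.disjoint_left.1 hd) h1 h2
            obtain ⟨e, he, h5⟩ := sep_op (E_of hb) (sepW ha h1)
              (hd.symm.mono_right (Finset.erase_subset _ _))
            refine ⟨e, E_cast he ?_, by rw [sV_symm, h5]⟩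
            rw [Finset.erase_union_distrib, Finset.erase_eq_of_notMem h4, Finset.union_comm]
          · have h4 : y ∉ L := fun h2 => (Finset.disjoint_left.1 hd) h2 h1
            obtain ⟨e, he, h5⟩ := sep_op (E_of ha) (sepW hb h1)
              (hd.mono_right (Finset.erase_subset _ _))
            refine ⟨e, E_cast he ?_, h5⟩
            rw [Finset.erase_union_distrib, Finset.erase_eq_of_notMem h4]
        obtain ⟨e, he, h5⟩ := h3
        refine ⟨cV f e, E_cast (E_c (D_of hf) he
          (hd2.symm.mono_right (Finset.erase_subset _ _))) ?_, by rw [h5, sV_cV_left, mul_comm]⟩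
        rw [Finset.erase_union_distrib (L ∪ M) N y, Finset.erase_eq_of_notMem h, Finset.union_comm]

/-- **one letter is separated in a vector family** -/
theorem sepE {L : Finset ℕ} {y : ℕ} {a : VF F} (hy : y ∈ L) (ha : a ∈ E F L) :
    a ∈ Op F (L.erase y) y := by
  refine E_ind (p := fun a => a ∈ Op F (L.erase y) y) ?_ ?_ ?_ ?_ ha
  · exact AddSubgroup.zero_mem _
  · intro a b ha hb; exact AddSubgroup.add_mem _ ha hb
  · intro a ha; exact AddSubgroup.neg_mem _ ha
  · intro N M f a hf hw hd hL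
    subst hL
    by_cases h : y ∈ M
    · have h1 : y ∉ N := fun h2 => (Finset.disjoint_left.1 hd) h2 h
      refine Op_cast (Op_c hf (sepW hw h) (hd.mono_right (Finset.erase_subset _ _))) ?_
      rw [Finset.erase_union_distrib, Finset.erase_eq_of_notMem h1]
    · have h0 : y ∈ N := by
        rcases Finset.mem_union.1 hy with h1 | h1
        · exact h1
        · exact absurd h1 h
      obtain ⟨e, he, h1⟩ := sep1 h0 hf
      rw [h1]
      refine Op_s (E_of hw) he (hd.symm.mono_right (Finset.erase_subset _ _)) ?_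
      rw [Finset.erase_union_distrib, Finset.erase_eq_of_notMem h, Finset.union_comm]

variable (F) in
/-- the separated form of the scalar families in which the letters `j` and `k` occur -/
def Op2 (L : Finset ℕ) (j k : ℕ) : Submodule F (SF F) :=
  Submodule.span F ({f | ∃ l ∈ D F L, f = l * sV (xx j) (xx k)} ∪
    {f | ∃ e ∈ E F L, f = sV e (mV (xx j) (xx k))} ∪
    {f | ∃ M N b c, b ∈ E F M ∧ c ∈ E F N ∧ Disjoint M N ∧ M ∪ N = L ∧
      f = sV b (xx j) * sV c (xx k)})

/-- **two letters are separated in a scalar family** -/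
theorem sep2 {L : Finset ℕ} {j k : ℕ} {f : SF F} (hj : j ∈ L) (hk : k ∈ L) (hjk : j ≠ k)
    (hf : f ∈ D F L) : f ∈ Op2 F ((L.erase j).erase k) j k := by
  obtain ⟨e, he, rfl⟩ := sep1 hk hf
  have h1 := Op_cast (sepE (Finset.mem_erase.2 ⟨hjk, hj⟩) he) (Finset.erase_right_comm)
  refine Op_ind (p := fun e => sV e (xx k) ∈ Op2 F ((L.erase j).erase k) j k) ?_ ?_ ?_ ?_ ?_ ?_ h1
  · rw [sV_zero_left]; exact Submodule.zero_mem _
  · intro a b ha hb; rw [sV_add_left]; exact Submodule.add_mem _ ha hb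
  · intro a ha; rw [sV_neg_left]; exact Submodule.neg_mem _ ha
  · intro l hl
    rw [sV_cV_left]
    exact Submodule.subset_span (Or.inl (Or.inl ⟨l, hl, rfl⟩))
  · intro e he
    rw [sV_assoc]
    exact Submodule.subset_span (Or.inl (Or.inr ⟨e, he, rfl⟩))
  · intro M N b c hb hc hd hL
    rw [sV_cV_left]
    exact Submodule.subset_span (Or.inr ⟨N, M, c, b, hc, hb, hd.symm, by
      rw [Finset.union_comm, hL], rfl⟩)

end X

end Pool.Agent.Malc
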